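import Pool.Agent.L0h4.T3.Cnv
import Pool.Agent.L0h61.T3.Cs
import Pool.Agent.L0h61.T3.Lin

/-!
# The algebraic converse for `y² = x³ + D³`, without hypotheses
-/

set_option autoImplicit false
set_option linter.unusedSectionVars false

namespace Pool.Agent.L0h4.T3

open Pool.Agent.Y696 Pool.Agent.Y715.T.Lat Pool.Agent.W192.HK
open Pool.Agent.L0h86.F3
open Pool.Agent.TH841.NF.D (Sha)
open Pool.Agent.L0h86.F1 (WM)

/-- **the converse** -/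
theorem convM {Q P : Finset ℕ} {ϖ : ℕ → eis} (h : Dt Q P ϖ) {D : ℕ} (hD : D = ∏ q ∈ Q ∪ P, q)
    (h4 : D % 4 = 1) (hns : ¬ Cr4 Q P ϖ) (hf : Finite (WM ℚ D).toAffine.Point) :
    ∃ y : Sha (WM ℚ D), y ≠ 0 ∧ y + y = 0 :=
  conv Pool.Agent.L0h61.T3.t_CG Pool.Agent.L0h61.T3.t_CI Pool.Agent.L0h61.T3.t_CS
    Pool.Agent.L0h61.T3.t_C3 h hD h4
    (fun h1 => hns ((Pool.Agent.L0h23.FDE.cr4_sys Pool.Agent.L0h80.F3.t_GEN
      Pool.Agent.L0h23.FR.t_REC Pool.Agent.L0h61.T3.t_LIN h hD h4).2 h1)) hf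

end Pool.Agent.L0h4.T3
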