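import Pool.Agent.L0h4.T3.Pri

/-!
# The Hecke series is the L-series of `y² = x³ + D³`
-/

set_option autoImplicit false
set_option linter.unusedSectionVars false

namespace Pool.Agent.L0h4.T3

open IsDedekindDomain
open Pool.Agent.W192.HK Pool.Agent.Y696 Pool.Agent.Y715.T.Lat
open Pool.Agent.L0h86.F3 (psi6 XD)
open Pool.Agent.L0h86.F1 (WM AdmM)

lemma nm_spn (α : eis) {n : ℕ} (h : Complex.normSq (α : ℂ) = n) :
    Nat.card (eis ⧸ (sp α : Ideal eis)) = n := by
  have h1 := (lbasic eis om qr).2.2.2.2.1 α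
  unfold nm at h1
  rw [h] at h1
  exact_mod_cast h1

lemma psi6_unit {α : eis} (hα : α - 1 ∈ (sp (2 * la) : Ideal eis)) : psi6 (sp α) = α := psi6_prim hα

lemma cj_norm_mem {α : eis} (hα : α - 1 ∈ (sp (2 * la) : Ideal eis)) :
    cj α - 1 ∈ (sp (2 * la) : Ideal eis) := by
  rw [Ideal.mem_span_singleton] at hα ⊢
  have h1 := dvd_cj hα
  rw [cj_mul, cj_two, cj_sub, cj_one] at h1
  have h2 : cj la = -la := by
    have h3 : cj omr = omr ^ 2 := coe_inj' (by rw [cj_coe, omr_coe, conj_om]; push_cast; rfl)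
    have h4 : (la : eis) = 1 + 2 * omr := by unfold la ez; push_cast; ring
    rw [h4]
    have h5 : cj (1 + 2 * omr) = 1 + 2 * cj omr := by
      show cjh (1 + 2 * omr) = _
      rw [map_add, map_mul, map_one, map_ofNat]
      rfl
    rw [h5, h3]
    linear_combination 2 * omr_sq
  rw [h2] at h1
  exact (by simpa using h1 : (2 * la : eis) ∣ cj α - 1)

/-- for `p ≡ 1 mod 3` -/
lemma b6_split {p : ℕ} (hp : p.Prime) (h3 : p % 3 = 1) {α : eis} (hα : α * cj α = (p : eis))
    (hα1 : α - 1 ∈ (sp (2 * la) : Ideal eis)) :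
    ((b6 p : ℤ) : ℂ) = (α : ℂ) + (starRingEnd ℂ) (α : ℂ) := by
  classical
  have hpr := prime_of_norm hp hα
  have hn := norm_of_cj hα
  have hcard := nm_spn α hn
  have hmax : (sp α : Ideal eis).IsMaximal :=
    Pool.Agent.L0h4.T3.hp α hpr |>.isPrime.isMaximal (Pool.Agent.L0h4.T3.hp α hpr).ne_bot
  let _ : Field (eis ⧸ (sp α : Ideal eis)) := Ideal.Quotient.field _
  have hfin : Finite (eis ⧸ (sp α : Ideal eis)) := Nat.finite_of_card_ne_zero (by
    rw [hcard]; exact hp.ne_zero)
  let _ : Fintype (eis ⧸ (sp α : Ideal eis)) := Fintype.ofFinite _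
  have hcf : Fintype.card (eis ⧸ (sp α : Ideal eis)) = p := by
    rw [← Nat.card_eq_fintype_card, hcard]
  have hp2 : p ≠ 2 := by rintro rfl; norm_num at h3
  have hp3 : p ≠ 3 := by rintro rfl; norm_num at h3
  have hchar : CharP (eis ⧸ (sp α : Ideal eis)) p := by
    rw [CharP.charP_iff_prime_eq_zero hp]
    have h1 : ((Fintype.card (eis ⧸ (sp α : Ideal eis)) : ℕ) : eis ⧸ (sp α : Ideal eis)) = 0 :=
      Nat.cast_card_eq_zero _
    rwa [hcf] at h1
  have hne : ∀ q : ℕ, q.Prime → q ≠ p → ((q : ℕ) : eis ⧸ (sp α : Ideal eis)) ≠ 0 := by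
    intro q hq hqp h0
    rw [CharP.cast_eq_zero_iff _ p] at h0
    exact hqp ((Nat.prime_dvd_prime_iff_eq hp hq).1 h0).symm
  have h2' : (2 : eis ⧸ (sp α : Ideal eis)) ≠ 0 := by
    have := hne 2 Nat.prime_two hp2.symm
    exact_mod_cast this
  have h3' : (3 : eis ⧸ (sp α : Ideal eis)) ≠ 0 := by
    have := hne 3 Nat.prime_three hp3.symm
    exact_mod_cast this
  have hc := card_one (Ideal.Quotient.mk (sp α : Ideal eis)) h2' h3' hpr hα1 (fun x => by
    rw [Ideal.Quotient.eq_zero_iff_mem, Ideal.mem_span_singleton]) (f := 1) (by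
    rw [hcf, pow_one, hα])
  rw [hcf, pow_one, pow_one] at hc
  have e1 : Nat.card {q : (eis ⧸ (sp α : Ideal eis)) × (eis ⧸ (sp α : Ideal eis)) //
      q.2 ^ 2 = q.1 ^ 3 + 1} = N36 p := by
    have : Fact p.Prime := ⟨hp⟩
    have h5 := card_iso (ZMod.ringEquivOfPrime (eis ⧸ (sp α : Ideal eis)) hp hcf).symm 1
    rw [Nat.cast_one, Nat.cast_one] at h5
    exact h5
  rw [e1] at hc
  have h6 := congrArg (fun t : eis => (t : ℂ)) hc
  push_cast at h6
  rw [cj_coe] at h6
  unfold b6
  rw [if_neg (by rintro (h | h) <;> contradiction)]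
  push_cast
  linear_combination -h6

/-- for `p ≡ 2 mod 3` -/
lemma b6_inert {p : ℕ} (hp : p.Prime) (h3 : p % 3 = 2) : b6 p = 0 := by
  have : Fact p.Prime := ⟨hp⟩
  unfold b6
  by_cases h : p = 2 ∨ p = 3
  · rw [if_pos h]
  rw [if_neg h]
  have hinj : Function.Injective fun x : ZMod p => x ^ 3 := by
    intro x y hxy
    have hxy : x ^ 3 = y ^ 3 := hxy
    obtain ⟨k, hk⟩ : ∃ k, p = 3 * k + 2 := ⟨p / 3, by omega⟩
    have h1 : ∀ z : ZMod p, z ^ (2 * p - 1) = z := by
      intro z
      have e : 2 * p - 1 = p + (p - 1) := by have := hp.two_le; omega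
      rw [e, pow_add, ZMod.pow_card]
      rcases eq_or_ne z 0 with h | h
      · rw [h, zero_mul]
      · rw [ZMod.pow_card_sub_one_eq_one h, mul_one]
    have e : 2 * p - 1 = 3 * (2 * k + 1) := by omega
    rw [← h1 x, ← h1 y, e, pow_mul, pow_mul, hxy]
  have hbij := Finite.injective_iff_bijective.1 hinj
  have h4 : N36 p = p := by
    unfold N36
    have h : Function.Bijective fun q : {q : ZMod p × ZMod p // q.2 ^ 2 = q.1 ^ 3 + 1} => q.1.2 := by
      constructor
      · rintro ⟨⟨x, y⟩, h1⟩ ⟨⟨x', y'⟩, h2⟩ h3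
        simp only at h1 h2 h3
        subst h3
        have : x = x' := hbij.1 (show x ^ 3 = x' ^ 3 by linear_combination h2 - h1)
        subst this
        rfl
      · intro y
        obtain ⟨x, hx⟩ := hbij.2 (y ^ 2 - 1)
        refine ⟨⟨(x, y), ?_⟩, rfl⟩
        have hx : x ^ 3 = y ^ 2 - 1 := hx
        simp only
        rw [hx]
        ring
    rw [Nat.card_congr (Equiv.ofBijective _ h), Nat.card_zmod]
  rw [h4, sub_self]

lemma cpow_two (p : ℕ) (s : ℂ) : ((p ^ 2 : ℕ) : ℂ) ^ (-s) = (((p : ℕ) : ℂ) ^ (-s)) ^ 2 := by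
  have h0 : (0 : ℝ) ≤ (((p : ℕ)) : ℝ) := Nat.cast_nonneg _
  have h2 := Complex.mul_cpow_ofReal_nonneg h0 h0 (-s)
  rw [Complex.ofReal_natCast] at h2
  push_cast
  rw [pow_two, h2]
  ring

/-- the function on the ideals -/
noncomputable def fI (D : ℕ) (s : ℂ) (J : Ideal eis) : ℂ := psi6 J * XD D J * (nm J : ℂ) ^ (-s)

/-- the factors at the primes which divide `6 D` -/
lemma fI_bad {D : ℕ} (h : AdmM D) (s : ℂ) (P : HeightOneSpectrum eis)
    (hP : bl P = (2 : ℕ) ∨ bl P = (3 : ℕ) ∨ (bl P : ℕ) ∣ D) : fI D s P.asIdeal = 0 := by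
  have hmem := bl_mem P
  have h6 : ∀ x : eis, x ∈ P.asIdeal → x ∣ 2 * la → psi6 P.asIdeal = 0 := by
    intro x hx hd
    rw [psi6_zero_iff]
    intro hc
    have h1 : (sp (2 * la) : Ideal eis) ≤ P.asIdeal := by
      rw [Ideal.span_singleton_le_iff_mem]
      obtain ⟨t, ht⟩ := hd
      rw [ht]
      exact Ideal.mul_mem_right _ _ hx
    rw [Ideal.isCoprime_iff_sup_eq, sup_eq_left.2 h1] at hc
    exact P.isPrime.ne_top hc
  unfold fI
  rcases hP with hP | hP | hP
  · rw [hP] at hmem
    rw [h6 2 (by exact_mod_cast hmem) (Dvd.intro _ rfl), zero_mul, zero_mul]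
  · rw [hP] at hmem
    have h7 : (la : eis) ∈ P.asIdeal := by
      have h8 : (la * la : eis) ∈ P.asIdeal := by
        rw [la_sq]
        have : (-3 : eis) = -1 * ((3 : ℕ) : eis) := by push_cast; ring
        rw [this]
        exact Ideal.mul_mem_left _ _ hmem
      rcases P.isPrime.mem_or_mem h8 with h9 | h9 <;> exact h9
    rw [h6 la h7 (Dvd.intro_left _ rfl), zero_mul, zero_mul]
  · have hx : XD D P.asIdeal = 0 := by
      unfold XD
      have hj : jacobiSym ((Nat.card (eis ⧸ P.asIdeal) : ℕ) : ℤ) D = 0 := by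
        have hne : NeZero D := ⟨h.sf.ne_zero⟩
        rw [jacobiSym.eq_zero_iff_not_coprime]
        intro hc
        rw [Int.gcd_natCast_natCast] at hc
        -- the norm is divisible by the rational prime
        have h8 : (bl P : ℕ) ∣ Nat.card (eis ⧸ P.asIdeal) := by
          obtain ⟨g, hg⟩ : ∃ g : eis, P.asIdeal = sp g :=
            ⟨_, (Submodule.IsPrincipal.span_singleton_generator P.asIdeal).symm⟩
          obtain ⟨n, hn⟩ := norm_int g
          rw [hg, nm_spn g hn]
          have h9 : ((n : ℕ) : eis) ∈ P.asIdeal := by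
            rw [← norm_cj g hn, hg]
            exact Ideal.mul_mem_right _ _ (Ideal.mem_span_singleton_self g)
          by_contra hnd
          have h10 : IsCoprime ((bl P : ℕ) : ℤ) (n : ℤ) :=
            Nat.isCoprime_iff_coprime.2 (((bl P).2.coprime_iff_not_dvd).2 hnd)
          obtain ⟨a, b, hab⟩ := h10
          have h11 : (a : eis) * ((bl P : ℕ) : eis) + (b : eis) * ((n : ℕ) : eis) = 1 := by
            have := congrArg (fun n : ℤ => (n : eis)) hab
            push_cast at this
            exact this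
          apply P.isPrime.ne_top
          rw [Ideal.eq_top_iff_one, ← h11]
          exact P.asIdeal.add_mem (Ideal.mul_mem_left _ _ hmem) (Ideal.mul_mem_left _ _ h9)
        have h9 := Nat.dvd_gcd h8 hP
        rw [hc] at h9
        exact (bl P).2.one_lt.ne' (Nat.dvd_one.1 h9)
      rw [hj, Int.cast_zero]
    rw [hx, mul_zero, zero_mul]

/-- the local factors -/
theorem factor {D : ℕ} (h : AdmM D) (s : ℂ) (p : Nat.Primes) :
    HasProd (fun P : {P : HeightOneSpectrum eis // bl P = p} => (1 - fI D s P.1.asIdeal)⁻¹)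
      ((1 - b6 p * (chM D (p : ℕ) * ((p : ℕ) : ℂ) ^ (-s)) +
      e6 p * (chM D (p : ℕ) * ((p : ℕ) : ℂ) ^ (-s)) ^ 2)⁻¹) := by
  classical
  by_cases hbad : (p : ℕ) = 2 ∨ (p : ℕ) = 3 ∨ (p : ℕ) ∣ D
  · have e1 : (1 - b6 p * (chM D (p : ℕ) * ((p : ℕ) : ℂ) ^ (-s)) +
        e6 p * (chM D (p : ℕ) * ((p : ℕ) : ℂ) ^ (-s)) ^ 2 : ℂ) = 1 := by
      rcases hbad with hb | hb | hb
      · unfold b6 e6
        rw [if_pos (Or.inl hb), if_pos (Or.inl hb)]
        push_cast
        ring
      · unfold b6 e6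
        rw [if_pos (Or.inr hb), if_pos (Or.inr hb)]
        push_cast
        ring
      · have : chM D (p : ℕ) = 0 := by
          unfold chM
          have hne : NeZero (p : ℕ) := ⟨p.2.ne_zero⟩
          rw [jacobiSym.eq_zero_iff_not_coprime]
          intro hc
          have h4 : (p : ℕ) ∣ Int.gcd (D : ℤ) ((p : ℕ) : ℤ) := by
            rw [Int.gcd_natCast_natCast]
            exact Nat.dvd_gcd hb dvd_rfl
          rw [hc] at h4
          exact p.2.one_lt.ne' (Nat.dvd_one.1 h4)
        rw [this]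
        push_cast
        ring
    rw [e1, inv_one]
    refine hasProd_one.congr_fun fun P => ?_
    have hz : fI D s P.1.asIdeal = 0 := fI_bad h s P.1 (by rw [P.2]; exact hbad)
    rw [hz, sub_zero, inv_one]
  · push Not at hbad
    obtain ⟨hp2, hp3, hpD⟩ := hbad
    have hodd : Odd (p : ℕ) := p.2.odd_of_ne_two hp2
    have hrec : jacobiSym ((p : ℕ) : ℤ) D = chM D p := by
      unfold chM
      exact (jacobiSym.quadratic_reciprocity_one_mod_four h.m4 hodd).symm
    have hsq : chM D (p : ℕ) ^ 2 = 1 := by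
      unfold chM
      rw [jacobiSym.sq_one]
      rw [Int.gcd_natCast_natCast]
      exact ((p.2.coprime_iff_not_dvd).2 hpD).symm
    have hm : (p : ℕ) % 3 = 1 ∨ (p : ℕ) % 3 = 2 := by
      have : (p : ℕ) % 3 ≠ 0 := fun h => hp3
        ((Nat.prime_dvd_prime_iff_eq Nat.prime_three p.2).1 (Nat.dvd_of_mod_eq_zero h)).symm
      omega
    have he : e6 p = ((p : ℕ) : ℤ) := by
      unfold e6
      rw [if_neg (by rintro (h | h) <;> contradiction)]
    rcases hm with hm | hm
    · -- split primes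
      obtain ⟨α, hα, hα1⟩ := split_prime p.2 hm
      have hα' : cj α * cj (cj α) = ((p : ℕ) : eis) := by rw [cj_cj, mul_comm, hα]
      have hα1' := cj_norm_mem hα1
      have hpr := prime_of_norm p.2 hα
      have hpr' := prime_of_norm p.2 hα'
      have hn := norm_of_cj hα
      have hn' := norm_of_cj hα'
      set P1 : {P : HeightOneSpectrum eis // bl P = p} :=
        ⟨hp α hpr, bl_hp hpr p (Dvd.intro _ hα)⟩ with hP1
      set P2 : {P : HeightOneSpectrum eis // bl P = p} :=
        ⟨hp (cj α) hpr', bl_hp hpr' p (Dvd.intro _ hα')⟩ with hP2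
      have hne : P1 ≠ P2 := by
        intro h0
        have h1 : (sp α : Ideal eis) = sp (cj α) :=
          congrArg HeightOneSpectrum.asIdeal (congrArg Subtype.val h0)
        have h2 := prim6_unique hα1 hα1' h1
        -- `α` is an integer
        obtain ⟨x, y, hx⟩ := α.2
        have h3 := congrArg (fun t : eis => (t : ℂ).im) h2
        simp only [cj_coe, Complex.conj_im] at h3
        have h4 : (α : ℂ).im = 0 := by linarith
        rw [hx] at h4
        simp only [Complex.add_im, Complex.mul_im, Complex.intCast_im, Complex.intCast_re,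
          zero_mul, add_zero, zero_add] at h4
        have h5 : (y : ℝ) = 0 := by
          rcases mul_eq_zero.1 h4 with h5 | h5
          · exact h5
          · exact absurd h5 om_im.ne'
        have h6 : y = 0 := by exact_mod_cast h5
        rw [hx, norm_rep, h6] at hn
        have h7 : x ^ 2 = ((p : ℕ) : ℤ) := by
          have : (x ^ 2 - x * 0 + 0 ^ 2 : ℤ) = ((p : ℕ) : ℤ) := by exact_mod_cast hn
          linear_combination this
        have h8 : (x.natAbs) ^ 2 = (p : ℕ) := by
          zify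
          rw [sq_abs]
          exact h7
        have h9 := p.2
        rw [← h8] at h9
        exact (Nat.Prime.not_prime_pow (le_refl 2)) h9
      have hall : ∀ P : {P : HeightOneSpectrum eis // bl P = p}, P = P1 ∨ P = P2 := by
        intro P
        have h1 : α * cj α ∈ P.1.asIdeal := by
          rw [hα]
          have := bl_mem P.1
          rwa [P.2] at this
        rcases P.1.isPrime.mem_or_mem h1 with h | h
        · exact Or.inl (Subtype.ext (eq_hp hpr P.1 h))
        · exact Or.inr (Subtype.ext (eq_hp hpr' P.1 h))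
      have hP := hasProd_prod_of_ne_finset_one (L := .unconditional _) (s := {P1, P2})
        (f := fun P : {P : HeightOneSpectrum eis // bl P = p} => (1 - fI D s P.1.asIdeal)⁻¹)
        (fun P hP => by
          exfalso
          apply hP
          rw [Finset.mem_insert, Finset.mem_singleton]
          exact hall P)
      rw [Finset.prod_pair hne] at hP
      have val : ∀ β : eis, β - 1 ∈ (sp (2 * la) : Ideal eis) → Complex.normSq (β : ℂ) = (p : ℕ) →
          fI D s (sp β) = β * chM D p * ((p : ℕ) : ℂ) ^ (-s) := by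
        intro β hβ hnβ
        unfold fI XD
        rw [psi6_prim hβ, nm_spn β hnβ, hrec]
        have : (nm (sp β : Ideal eis) : ℂ) = ((p : ℕ) : ℂ) := by
          unfold nm
          rw [nm_spn β hnβ]
          push_cast
          rfl
        rw [this]
      have v1 : fI D s P1.1.asIdeal = α * chM D p * ((p : ℕ) : ℂ) ^ (-s) := val α hα1 hn
      have v2 : fI D s P2.1.asIdeal = (cj α : eis) * chM D p * ((p : ℕ) : ℂ) ^ (-s) :=
        val (cj α) hα1' hn'
      rw [v1, v2] at hP
      refine Eq.mp ?_ hP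
      congr 1
      have hap := b6_split p.2 hm hα hα1
      have hpC : (α : ℂ) * (starRingEnd ℂ) (α : ℂ) = ((p : ℕ) : ℂ) := by
        have := congrArg (fun t : eis => (t : ℂ)) hα
        push_cast at this
        rw [cj_coe] at this
        exact this
      rw [← mul_inv, hap, he, cj_coe]
      congr 1
      push_cast
      set X := (((p : ℕ)) : ℂ) ^ (-s)
      set C := (chM D p : ℂ)
      linear_combination (C ^ 2 * X ^ 2) * hpC
    · -- inert primes
      have hpr := inert_prime p.2 hm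
      set P1 : {P : HeightOneSpectrum eis // bl P = p} := ⟨hp _ hpr, bl_hp hpr p dvd_rfl⟩
      have hall : ∀ P : {P : HeightOneSpectrum eis // bl P = p}, P = P1 := by
        intro P
        refine Subtype.ext (eq_hp hpr P.1 ?_)
        have := bl_mem P.1
        rwa [P.2] at this
      have hP := hasProd_prod_of_ne_finset_one (L := .unconditional _) (s := {P1})
        (f := fun P : {P : HeightOneSpectrum eis // bl P = p} => (1 - fI D s P.1.asIdeal)⁻¹)
        (fun P hP => by
          exfalso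
          apply hP
          rw [Finset.mem_singleton]
          exact hall P)
      rw [Finset.prod_singleton] at hP
      have hn : Complex.normSq (((p : ℕ) : eis) : ℂ) = ((p : ℕ) ^ 2 : ℕ) := by
        push_cast
        rw [Complex.normSq_natCast]
        ring
      have hneg : (-((p : ℕ) : eis)) - 1 ∈ (sp (2 * la) : Ideal eis) := by
        have h1 := mem_2la (-((p : ℕ) : ℤ) - 1) 0 (by
          obtain ⟨k, hk⟩ := hodd
          exact ⟨-(k + 1), by rw [hk]; push_cast; ring⟩) (by norm_num) (by omega)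
        convert h1 using 1
        push_cast
        ring
      have hsp : (sp ((p : ℕ) : eis) : Ideal eis) = sp (-((p : ℕ) : eis)) :=
        (Ideal.span_singleton_neg _).symm
      have v1 : fI D s P1.1.asIdeal = -((p : ℕ) : ℂ) * (((p : ℕ) : ℂ) ^ (-s)) ^ 2 := by
        show fI D s (sp ((p : ℕ) : eis)) = _
        unfold fI XD
        have h1 : psi6 (sp ((p : ℕ) : eis)) = -((p : ℕ) : ℂ) := by
          rw [hsp, psi6_prim hneg]
          push_cast
          rfl
        have h2 : (nm (sp ((p : ℕ) : eis) : Ideal eis) : ℂ) = (((p : ℕ) ^ 2 : ℕ) : ℂ) := by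
          unfold nm
          rw [nm_spn _ hn]
          push_cast
          rfl
        have h4 : jacobiSym ((((p : ℕ) ^ 2 : ℕ)) : ℤ) D = 1 := by
          push_cast
          rw [jacobiSym.pow_left, hrec, hsq]
        rw [h1, nm_spn _ hn, h4, h2, cpow_two]
        push_cast
        ring
      rw [v1] at hP
      refine Eq.mp ?_ hP
      congr 1
      have hC : (chM D p : ℂ) ^ 2 = 1 := by exact_mod_cast hsq
      rw [b6_inert p.2 hm, he]
      congr 1
      push_cast
      linear_combination (-((p : ℕ) : ℂ) * (((p : ℕ) : ℂ) ^ (-s)) ^ 2) * hC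

/-- **the Hecke series is the L-series of the curve** -/
theorem deuring {D : ℕ} (h : AdmM D) (hX : ∀ I J : Ideal eis, XD D (I * J) = XD D I * XD D J)
    {F : ℂ → ℂ} (hF : ∀ z : ℂ, 3 / 2 < z.re →
      HasSum (fun J : Ideal eis => psi6 J * XD D J * (nm J : ℂ) ^ (-z)) (F z)) :
    (∀ z : ℂ, 3 / 2 < z.re → HasProd (fun p : Nat.Primes =>
      (1 - b6 p * (chM D (p : ℕ) * ((p : ℕ) : ℂ) ^ (-z)) +
      e6 p * (chM D (p : ℕ) * ((p : ℕ) : ℂ) ^ (-z)) ^ 2)⁻¹) (F z)) ∧
    ∀ s : ℂ, 2 < s.re → F s = (WM ℚ D).LSeries s := by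
  have key : ∀ z : ℂ, 3 / 2 < z.re → HasProd (fun p : Nat.Primes =>
      (1 - b6 p * (chM D (p : ℕ) * ((p : ℕ) : ℂ) ^ (-z)) +
      e6 p * (chM D (p : ℕ) * ((p : ℕ) : ℂ) ^ (-z)) ^ 2)⁻¹) (F z) := by
    intro z hz
    have h1 := hF z hz
    have hb : nm (⊤ : Ideal eis) = 1 := by
      have e : (⊤ : Ideal eis) = sp 1 := Ideal.span_singleton_one.symm
      rw [e]
      unfold nm
      rw [nm_spn 1 (n := 1) (by simp)]
      norm_num
    have hmul : ∀ I J : Ideal eis, nm (I * J) = nm I * nm J := (lbasic eis om qr).2.2.2.1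
    have h2 := hasProd_ideal (fI D z) (by
      unfold fI
      have : psi6 (⊥ : Ideal eis) = 0 := (psi6_zero_iff _).2 not_cop_bot6
      rw [this, zero_mul, zero_mul]) (by
      unfold fI XD
      have e : (⊤ : Ideal eis) = sp 1 := Ideal.span_singleton_one.symm
      have h3 : psi6 (sp (1 : eis)) = 1 := by
        rw [psi6_prim (by rw [sub_self]; exact Submodule.zero_mem _)]
        rfl
      have h4 : (Nat.card (eis ⧸ (⊤ : Ideal eis)) : ℕ) = 1 := by
        rw [e]
        exact nm_spn 1 (n := 1) (by simp)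
      rw [hb, h4]
      rw [e, h3]
      push_cast
      rw [jacobiSym.one_left]
      simp) (fun I J => by
      unfold fI
      rw [(t_PSI).mul, hX, hmul]
      have h0 : ∀ K : Ideal eis, 0 ≤ nm K := Pool.Agent.Y696.nm_nonneg
      push_cast
      rw [Complex.mul_cpow_ofReal_nonneg (h0 I) (h0 J)]
      ring) h1.summable
    have h3 := regroup h2 fun p => factor h z p
    have h4 : ∑' I : Ideal eis, fI D z I = F z := h1.tsum_eq
    rwa [h4] at h3
  refine ⟨key, lseriesM h fun z hz => key z (by linarith)⟩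

end Pool.Agent.L0h4.T3

namespace Pool.Agent.L0h4.T3

open Pool.Agent.W192.HK Pool.Agent.Y696
open Pool.Agent.L0h86.F3 (psi6 XD)
open Pool.Agent.L0h86.F1 (WM AdmM)

/-- the quadratic character is multiplicative -/
theorem XD_mul (D : ℕ) (I J : Ideal eis) : XD D (I * J) = XD D I * XD D J := by
  have hmul : nm (I * J) = nm I * nm J := (lbasic eis om qr).2.2.2.1 I J
  unfold nm at hmul
  have h1 : Nat.card (eis ⧸ (I * J)) = Nat.card (eis ⧸ I) * Nat.card (eis ⧸ J) := by
    exact_mod_cast hmul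
  unfold XD
  rw [h1]
  push_cast
  rw [jacobiSym.mul_left]
  push_cast
  rfl

/-- **DEUR** -/
theorem t_DEUR {D : ℕ} (h : AdmM D)
    {F : ℂ → ℂ} (hF : ∀ z : ℂ, 3 / 2 < z.re →
      HasSum (fun J : Ideal eis => psi6 J * XD D J * (nm J : ℂ) ^ (-z)) (F z)) :
    (∀ z : ℂ, 3 / 2 < z.re → HasProd (fun p : Nat.Primes =>
      (1 - b6 p * (chM D (p : ℕ) * ((p : ℕ) : ℂ) ^ (-z)) +
      e6 p * (chM D (p : ℕ) * ((p : ℕ) : ℂ) ^ (-z)) ^ 2)⁻¹) (F z)) ∧
    ∀ s : ℂ, 2 < s.re → F s = (WM ℚ D).LSeries s := deuring h (XD_mul D) hF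

end Pool.Agent.L0h4.T3
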