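import Pool.Agent.L0h86.F3.Def

/-!
# The Hecke character of conductor `2 √-3`
-/

set_option autoImplicit false

open Complex

namespace Pool.Agent.L0h4.T3

open Pool.Agent.W192.HK Pool.Agent.Y696 Pool.Agent.Y715.T.Lat
open Pool.Agent.L0h86.F3 (psi6 S_PSI)

lemma mem_2la (a b : ℤ) (ha : 2 ∣ a) (hb : 2 ∣ b) (h3 : 3 ∣ a + b) :
    ((a : eis) + b * omr) ∈ (sp (2 * la) : Ideal eis) := by
  obtain ⟨a, rfl⟩ := ha
  obtain ⟨b, rfl⟩ := hb
  have h3' : 3 ∣ b - 2 * a := by omega
  obtain ⟨t, ht⟩ := h3'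
  obtain rfl : b = 3 * t + 2 * a := by omega
  rw [Ideal.mem_span_singleton']
  refine ⟨((a + 2 * t : ℤ) : eis) + (t : eis) * omr, ?_⟩
  unfold la ez
  push_cast
  linear_combination (4 * t : eis) * omr_sq

lemma two_la_mod (x y : ℤ) (h2 : ¬ (2 ∣ x ∧ 2 ∣ y)) (h : ¬ (3 : ℤ) ∣ x + y) :
    ∃ u : eis, IsUnit u ∧ ((x : eis) + y * omr) - u ∈ (sp (2 * la) : Ideal eis) := by
  have hu : ∀ v ∈ ({1, -1, omr, -omr, omr ^ 2, -omr ^ 2} : Set eis), IsUnit v := fun v hv =>
    (unit_list v).2 hv
  simp only [Set.mem_insert_iff, Set.mem_singleton_iff] at hu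
  have hc := omr_sq
  have h3 : (x + y) % 3 = 1 ∨ (x + y) % 3 = 2 := by omega
  have hp : (x % 2 = 1 ∧ y % 2 = 0) ∨ (x % 2 = 0 ∧ y % 2 = 1) ∨ (x % 2 = 1 ∧ y % 2 = 1) := by omega
  rcases h3 with h3 | h3 <;> rcases hp with ⟨p1, p2⟩ | ⟨p1, p2⟩ | ⟨p1, p2⟩
  · refine ⟨1, hu _ (by simp), ?_⟩
    have := mem_2la (x - 1) y (by omega) (by omega) (by omega)
    convert this using 1
    push_cast; ring
  · refine ⟨omr, hu _ (by simp), ?_⟩
    have := mem_2la x (y - 1) (by omega) (by omega) (by omega)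
    convert this using 1
    push_cast; ring
  · refine ⟨omr ^ 2, hu _ (by simp), ?_⟩
    have := mem_2la (x + 1) (y + 1) (by omega) (by omega) (by omega)
    convert this using 1
    push_cast; linear_combination -hc
  · refine ⟨-1, hu _ (by simp), ?_⟩
    have := mem_2la (x + 1) y (by omega) (by omega) (by omega)
    convert this using 1
    push_cast; ring
  · refine ⟨-omr, hu _ (by simp), ?_⟩
    have := mem_2la x (y + 1) (by omega) (by omega) (by omega)
    convert this using 1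
    push_cast; ring
  · refine ⟨-omr ^ 2, hu _ (by simp), ?_⟩
    have := mem_2la (x - 1) (y - 1) (by omega) (by omega) (by omega)
    convert this using 1
    push_cast; linear_combination hc

lemma normSq_la : Complex.normSq ((la : eis) : ℂ) = 3 := by
  have h := norm_rep 1 2
  unfold la
  rw [ez_coe]
  rw [h]
  norm_num

lemma normSq_two_la : Complex.normSq ((2 * la : eis) : ℂ) = 12 := by
  push_cast
  rw [Complex.normSq_mul, normSq_la]
  have : Complex.normSq ((2 : eis) : ℂ) = 4 := by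
    have e : ((2 : eis) : ℂ) = 2 := rfl
    rw [e]
    norm_num [Complex.normSq_apply]
  rw [this]
  norm_num

lemma two_la_ne : (2 * la : eis) ≠ 0 := by
  intro h
  have := normSq_two_la
  rw [h] at this
  norm_num at this

/-- units are distinct modulo `2 √-3` -/
lemma unit_mod6 {u v : eis} (hu : IsUnit u) (hv : IsUnit v)
    (h : u - v ∈ (sp (2 * la) : Ideal eis)) : u = v := by
  rw [Ideal.mem_span_singleton'] at h
  obtain ⟨t, ht⟩ := h
  by_contra hne
  have h1 : Complex.normSq ((u - v : eis) : ℂ) = 12 * Complex.normSq (t : ℂ) := by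
    rw [← ht]
    rw [Subring.coe_mul, Complex.normSq_mul, normSq_two_la]
    ring
  have h2 : Complex.normSq (u : ℂ) = 1 := (isUnit_iff' u).1 hu
  have h3 : Complex.normSq (v : ℂ) = 1 := (isUnit_iff' v).1 hv
  have h4 : Complex.normSq ((u - v : eis) : ℂ) ≤ 4 := by
    push_cast
    have h5 : ‖(u : ℂ) - v‖ ≤ 2 := by
      refine (norm_sub_le _ _).trans ?_
      rw [Complex.normSq_eq_norm_sq] at h2 h3
      have h6 : ‖(u : ℂ)‖ = 1 := by
        have := norm_nonneg (u : ℂ)
        nlinarith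
      have h7 : ‖(v : ℂ)‖ = 1 := by
        have := norm_nonneg (v : ℂ)
        nlinarith
      rw [h6, h7]
      norm_num
    rw [Complex.normSq_eq_norm_sq]
    have := norm_nonneg ((u : ℂ) - v)
    nlinarith
  obtain ⟨n, hn⟩ := norm_int t
  rw [hn] at h1
  have h5 : (12 * n : ℝ) ≤ 4 := by linarith
  have h6 : n = 0 := by
    have : 12 * n ≤ 4 := by exact_mod_cast h5
    omega
  rw [h6] at hn
  have h7 : t = 0 := by
    apply coe_inj'
    simpa using hn
  rw [h7, zero_mul] at ht
  exact hne (sub_eq_zero.1 ht.symm)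

lemma not_unit_of_normSq {x : eis} {n : ℕ} (h : Complex.normSq (x : ℂ) = n) (hn : n ≠ 1) :
    ¬ IsUnit x := by
  rw [isUnit_iff', h]
  exact_mod_cast hn

lemma la_not_unit : ¬ IsUnit (la : eis) := not_unit_of_normSq (n := 3) (by rw [normSq_la]; norm_num)
  (by norm_num)

lemma two_not_unit : ¬ IsUnit (2 : eis) := not_unit_of_normSq (n := 4) (by
    have e : ((2 : eis) : ℂ) = 2 := rfl
    rw [e]
    norm_num [Complex.normSq_apply]) (by norm_num)

lemma la_dvd_iff (x y : ℤ) : (la : eis) ∣ (x : eis) + y * omr ↔ (3 : ℤ) ∣ x + y := by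
  constructor
  · rintro ⟨t, ht⟩
    obtain ⟨a, b, rfl⟩ := ez_ex t
    have h1 : ez x y = ez 1 2 * ez a b := ht
    rw [ez_mul] at h1
    obtain ⟨h2, h3⟩ := ez_inj h1
    omega
  · intro h
    obtain ⟨t, ht⟩ : 3 ∣ y - 2 * x := by omega
    obtain rfl : y = 3 * t + 2 * x := by omega
    refine ⟨((x + 2 * t : ℤ) : eis) + (t : eis) * omr, ?_⟩
    unfold la ez
    push_cast
    linear_combination (-2 * t : eis) * omr_sq

lemma two_dvd_iff (x y : ℤ) : (2 : eis) ∣ (x : eis) + y * omr ↔ (2 : ℤ) ∣ x ∧ (2 : ℤ) ∣ y := by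
  constructor
  · rintro ⟨t, ht⟩
    obtain ⟨a, b, rfl⟩ := ez_ex t
    have h1 : ez x y = ez 2 0 * ez a b := by
      rw [ez_int]
      exact_mod_cast ht
    rw [ez_mul] at h1
    obtain ⟨h2, h3⟩ := ez_inj h1
    omega
  · rintro ⟨⟨a, rfl⟩, ⟨b, rfl⟩⟩
    exact ⟨(a : eis) + b * omr, by push_cast; ring⟩

lemma cop_two_la {α : eis} (h : IsCoprime α (2 * la)) :
    ∃ u : eis, IsUnit u ∧ α - u ∈ (sp (2 * la) : Ideal eis) := by
  obtain ⟨x, y, hα⟩ := eis_rep α
  rw [hα]
  apply two_la_mod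
  · intro h2
    have h3 := (two_dvd_iff x y).2 h2
    rw [← hα] at h3
    exact two_not_unit (h.isUnit_of_dvd' h3 (Dvd.intro _ rfl))
  · intro h2
    have h3 := (la_dvd_iff x y).2 h2
    rw [← hα] at h3
    exact la_not_unit (h.isUnit_of_dvd' h3 (Dvd.intro_left _ rfl))

lemma cop_of_unit6 {α u : eis} (hu : IsUnit u) (h : α - u ∈ (sp (2 * la) : Ideal eis)) :
    IsCoprime α (2 * la) := by
  obtain ⟨w, hw⟩ := hu.exists_right_inv
  rw [Ideal.mem_span_singleton'] at h
  obtain ⟨t, ht⟩ := h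
  exact ⟨w, -t * w, by linear_combination -w * ht + hw⟩

/-- normalised generators -/
lemma exists_prim6 {I : Ideal eis} (h : IsCoprime I (sp (2 * la))) :
    ∃ α : eis, I = sp α ∧ α - 1 ∈ (sp (2 * la) : Ideal eis) := by
  obtain ⟨β, rfl⟩ : ∃ β : eis, I = sp β :=
    ⟨_, (Submodule.IsPrincipal.span_singleton_generator I).symm⟩
  rw [Ideal.isCoprime_span_singleton_iff] at h
  obtain ⟨u, hu, hu'⟩ := cop_two_la h
  obtain ⟨w, hw⟩ := hu.exists_right_inv
  refine ⟨w * β, ?_, ?_⟩
  · have hwu : IsUnit w := IsUnit.of_mul_eq_one u (by rw [mul_comm]; exact hw)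
    exact (Ideal.span_singleton_mul_left_unit hwu β).symm
  · have := (sp (2 * la) : Ideal eis).mul_mem_left w hu'
    rwa [mul_sub, mul_comm w u, hw] at this

lemma prim6_unique {α β : eis} (hα : α - 1 ∈ (sp (2 * la) : Ideal eis))
    (hβ : β - 1 ∈ (sp (2 * la) : Ideal eis)) (h : sp α = sp β) : α = β := by
  obtain ⟨u, hu⟩ := Ideal.span_singleton_eq_span_singleton.1 h
  have h1 : (u : eis) - 1 ∈ (sp (2 * la) : Ideal eis) := by
    rw [← hu] at hβ
    have h2 := (sp (2 * la) : Ideal eis).mul_mem_right (u : eis) hα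
    have h3 := (sp (2 * la) : Ideal eis).sub_mem hβ h2
    convert h3 using 1
    ring
  have h2 := unit_mod6 u.isUnit isUnit_one h1
  rw [h2, mul_one] at hu
  exact hu

lemma psi6_prim {α : eis} (hα : α - 1 ∈ (sp (2 * la) : Ideal eis)) : psi6 (sp α) = α := by
  have h : ∃ β : eis, sp α = sp β ∧ β - 1 ∈ (sp (2 * la) : Ideal eis) := ⟨α, rfl, hα⟩
  unfold psi6
  rw [dif_pos h]
  obtain ⟨h1, h2⟩ := Classical.choose_spec h
  rw [← prim6_unique hα h2 h1]

lemma two_la_not_unit : ¬ IsUnit (2 * la : eis) := fun h => two_not_unit (isUnit_of_mul_isUnit_left h)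

lemma prim6_ne {α : eis} (hα : α - 1 ∈ (sp (2 * la) : Ideal eis)) : α ≠ 0 := by
  rintro rfl
  have h1 : IsCoprime (0 : eis) (2 * la) := cop_of_unit6 isUnit_one hα
  rw [isCoprime_zero_left] at h1
  exact two_la_not_unit h1

lemma psi6_zero_iff (I : Ideal eis) : psi6 I = 0 ↔ ¬ IsCoprime I (sp (2 * la)) := by
  constructor
  · intro h hc
    obtain ⟨α, rfl, hα⟩ := exists_prim6 hc
    rw [psi6_prim hα] at h
    exact prim6_ne hα (coe_inj' h)
  · intro h
    unfold psi6
    rw [dif_neg]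
    rintro ⟨α, rfl, hα⟩
    apply h
    rw [Ideal.isCoprime_span_singleton_iff]
    exact cop_of_unit6 isUnit_one hα

lemma not_cop_bot6 : ¬ IsCoprime (⊥ : Ideal eis) (sp (2 * la)) := by
  intro h
  have e : (⊥ : Ideal eis) = sp 0 := by simp
  rw [e, Ideal.isCoprime_span_singleton_iff, isCoprime_zero_left] at h
  exact two_la_not_unit h

lemma la_prime : Prime (la : eis) := by
  refine ⟨?_, la_not_unit, ?_⟩
  · intro h
    have := normSq_la
    rw [h] at this
    norm_num at this
  · intro x y h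
    obtain ⟨a, b, rfl⟩ := eis_rep x
    obtain ⟨c, d, rfl⟩ := eis_rep y
    have e : ((a : eis) + b * omr) * ((c : eis) + d * omr) =
        ((a * c - b * d : ℤ) : eis) + ((a * d + b * c - b * d : ℤ) : eis) * omr := by
      push_cast
      linear_combination (b * d : eis) * omr_sq
    rw [e, la_dvd_iff] at h
    rw [la_dvd_iff, la_dvd_iff]
    have h3 : (3 : ℤ) ∣ (a + b) * (c + d) := by
      have : (a + b) * (c + d) = (a * c - b * d + (a * d + b * c - b * d)) + 3 * (b * d) := by ring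
      rw [this]
      exact Dvd.dvd.add h (Dvd.intro _ rfl)
    exact Int.Prime.dvd_mul' (by norm_num) h3

lemma two_factor {x y : eis} (h : (2 : eis) = x * y) : IsUnit x ∨ IsUnit y := by
  obtain ⟨a, ha⟩ := norm_int x
  obtain ⟨b, hb⟩ := norm_int y
  have h1 : Complex.normSq (x : ℂ) * Complex.normSq (y : ℂ) = 4 := by
    rw [← Complex.normSq_mul]
    have e : ((x * y : eis) : ℂ) = 2 := by rw [← h]; rfl
    push_cast at e
    rw [e]
    norm_num [Complex.normSq_apply]
  rw [ha, hb] at h1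
  have h2 : a * b = 4 := by exact_mod_cast h1
  have h3 : a ∣ 4 := Dvd.intro _ h2
  have h4 : a ≤ 4 := Nat.le_of_dvd (by norm_num) h3
  rw [isUnit_iff', isUnit_iff', ha, hb]
  have h5 : a ≠ 2 := by
    rintro rfl
    obtain ⟨s, t, hs⟩ := x.2
    rw [hs, norm_rep] at ha
    have h6 : s ^ 2 - s * t + t ^ 2 = 2 := by exact_mod_cast ha
    have h7 : -2 ≤ s ∧ s ≤ 2 := by constructor <;> nlinarith [sq_nonneg (2 * t - s), sq_nonneg s]
    have h8 : -2 ≤ t ∧ t ≤ 2 := by constructor <;> nlinarith [sq_nonneg (2 * s - t), sq_nonneg t]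
    obtain ⟨h7, h7'⟩ := h7
    obtain ⟨h8, h8'⟩ := h8
    interval_cases s <;> interval_cases t <;> omega
  have h6 : a ≠ 0 := by
    rintro rfl
    omega
  have h7 : a ≠ 3 := by
    rintro rfl
    omega
  have h8 : a = 1 ∨ a = 4 := by omega
  rcases h8 with rfl | rfl
  · left; simp
  · right
    have : b = 1 := by omega
    rw [this]
    simp

lemma dvd_two_la {d : eis} (h : d ∣ 2 * la) (hn : ¬ (2 * la : eis) ∣ d) : d ∣ 2 ∨ d ∣ la := by
  have h0 : (la : eis) ≠ 0 := la_prime.ne_zero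
  obtain ⟨e, he⟩ := h
  have hla : la ∣ d * e := ⟨2, by rw [← he]; ring⟩
  rcases la_prime.dvd_or_dvd hla with ⟨d', rfl⟩ | ⟨e', rfl⟩
  · have h1 : (2 : eis) = d' * e := mul_left_cancel₀ h0 (by linear_combination he)
    rcases two_factor h1 with h2 | h2
    · right
      obtain ⟨w, hw⟩ := h2.exists_right_inv
      exact ⟨w, by rw [mul_assoc, hw, mul_one]⟩
    · exfalso
      apply hn
      obtain ⟨w, hw⟩ := h2.exists_right_inv
      exact ⟨w, by rw [h1]; linear_combination -(la * d' * hw)⟩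
  · left
    exact ⟨e', mul_left_cancel₀ h0 (by linear_combination he)⟩

lemma la_dvd_omr_sub : (la : eis) ∣ omr - 1 := by
  have := (la_dvd_iff (-1) 1).2 (by norm_num)
  convert this using 1
  push_cast; ring

/-- **M1** -/
theorem t_PSI : S_PSI := by
  have hs : ∀ u : eis, (1 : eis) - 1 ∈ (sp u : Ideal eis) := fun u => by
    rw [sub_self]; exact Submodule.zero_mem _
  refine ⟨?_, ?_, ?_, ?_, ?_⟩
  · rw [Ne, Ideal.span_singleton_eq_bot]
    exact two_la_ne
  · intro I J
    by_cases hI : IsCoprime I (sp (2 * la : eis))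
    · by_cases hJ : IsCoprime J (sp (2 * la : eis))
      · obtain ⟨α, rfl, hα⟩ := exists_prim6 hI
        obtain ⟨β, rfl, hβ⟩ := exists_prim6 hJ
        have e : sp α * sp β = sp (α * β) := Ideal.span_singleton_mul_span_singleton α β
        have h : α * β - 1 ∈ (sp (2 * la) : Ideal eis) := by
          have h1 := (sp (2 * la) : Ideal eis).add_mem
            ((sp (2 * la) : Ideal eis).mul_mem_right β hα) hβ
          convert h1 using 1
          ring
        rw [e, psi6_prim hα, psi6_prim hβ, psi6_prim h]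
        push_cast
        rfl
      · rw [(psi6_zero_iff J).2 hJ, mul_zero, psi6_zero_iff]
        intro h
        exact hJ (IsCoprime.of_mul_left_right h)
    · rw [(psi6_zero_iff I).2 hI, zero_mul, psi6_zero_iff]
      intro h
      exact hI (IsCoprime.of_mul_left_left h)
  · intro I
    rw [psi6_zero_iff]
    constructor
    · intro h
      exact Or.inr h
    · rintro (rfl | h)
      · exact not_cop_bot6
      · exact h
  · intro α _ hα
    rw [psi6_prim hα, pow_one]
  · intro q' hq'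
    obtain ⟨d, rfl⟩ : ∃ d : eis, q' = sp d :=
      ⟨_, (Submodule.IsPrincipal.span_singleton_generator q').symm⟩
    have h1 : d ∣ 2 * la := Ideal.span_singleton_le_span_singleton.1 hq'.le
    have h2 : ¬ (2 * la : eis) ∣ d := fun h => by
      have := Ideal.span_singleton_le_span_singleton.2 h
      exact absurd (le_antisymm hq'.le this) hq'.ne
    have key : ∀ u : eis, IsUnit u → d ∣ u - 1 → (u : ℂ) ≠ 1 →
        ∃ α : eis, α ≠ 0 ∧ α - 1 ∈ (sp d : Ideal eis) ∧ IsCoprime (sp α) (sp (2 * la)) ∧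
          psi6 (sp α) ≠ (α : ℂ) ^ 1 := by
      intro u hu hd hu1
      refine ⟨u, hu.ne_zero, Ideal.mem_span_singleton.2 hd, ?_, ?_⟩
      · rw [Ideal.isCoprime_span_singleton_iff]
        exact cop_of_unit6 hu (by rw [sub_self]; exact Submodule.zero_mem _)
      · have e : sp u = sp 1 := by
          rw [Ideal.span_singleton_eq_span_singleton]
          exact associated_one_iff_isUnit.2 hu
        rw [e, psi6_prim (hs _), pow_one]
        intro h
        exact hu1 h.symm
    rcases dvd_two_la h1 h2 with h | h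
    · refine key (-1) ((unit_list _).2 (by simp)) (h.trans ⟨-1, by ring⟩) ?_
      push_cast
      norm_num
    · refine key omr ((unit_list _).2 (by simp)) (h.trans la_dvd_omr_sub) ?_
      rw [omr_coe]
      intro h
      have := congrArg Complex.im h
      simp at this
      exact om_im.ne' this

end Pool.Agent.L0h4.T3
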