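import Pool.Agent.L0h4.TC.Zd
import Pool.Agent.L0h86.F3.Def

/-!
# The converse for `y² = x³ + D³`: the local statements

`X (X² - 3 D X + 3 D²)`, `T = D (1 - ω)` is a root of `T² - 3 D T + 3 D²`, so that
`x + y ω = (x + y) - (y / D) T`. `LocZ L a b u v`: the class of `u + v T` is the class of a point over `L`
(`Pool/Agent/L0h4/TC/Zd.lean`).
-/

set_option autoImplicit false
set_option linter.unusedSectionVars false

namespace Pool.Agent.L0h4.T3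

open Pool.Agent.Y696 Pool.Agent.Y715.T.Lat Pool.Agent.W192.HK
open Pool.Agent.L0h86.F3
open Pool.Agent.L0h4.TC (LocZ SqZ PtZ)

/-- the first coordinate -/
noncomputable def cx (z : eis) : ℤ := (ez_ex z).choose

/-- the second coordinate -/
noncomputable def cy (z : eis) : ℤ := (ez_ex z).choose_spec.choose

lemma cxy (z : eis) : z = ez (cx z) (cy z) := (ez_ex z).choose_spec.choose_spec

lemma cx_ez (a b : ℤ) : cx (ez a b) = a := (ez_inj (cxy (ez a b))).1.symm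

lemma cy_ez (a b : ℤ) : cy (ez a b) = b := (ez_inj (cxy (ez a b))).2.symm

/-- the local condition over `L` for the class of `z = x + y ω` -/
def LZ (L : Type) [Field L] (D : ℤ) (z : eis) : Prop :=
  LocZ L (-3 * D) (3 * D ^ 2) ((cx z : L) + (cy z : L)) (-((cy z : L) / (D : L)))

/-- the condition at a prime element `π` dividing `D` exactly once: `s = 1` if the conjugate prime
divides `z` (never for an inert prime), else `0` -/
def LC3 (π : eis) (D : ℤ) (z : eis) (s : ZMod 2) : Prop :=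
  sy π ((-1) ^ s.val * z) = 1 ∨
    ∃ z₁ D₁ : eis, z = π * z₁ ∧ (D : eis) = π * D₁ ∧ sy π ((-1) ^ s.val * (la * (D₁ * z₁))) = 1

/-- C-G: the primes which do not divide `6 D N(z)` -/
def S_CG : Prop := ∀ (p : ℕ) [Fact p.Prime] (D : ℤ) (z : eis), p ≠ 2 → p ≠ 3 → ¬ (p : ℤ) ∣ D →
  ¬ (p : ℤ) ∣ cx z ^ 2 - cx z * cy z + cy z ^ 2 → LZ ℚ_[p] D z

/-- C-I: the inert primes dividing `D` (the sign does not matter) -/
def S_CI : Prop := ∀ (q : ℕ) [Fact q.Prime] (D : ℤ) (z : eis), q % 2 = 1 → q % 3 = 2 → D ≠ 0 →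
  ((sy (-(q : eis)) z = 1) ∨ ∃ z₁ D₁ : eis, z = -(q : eis) * z₁ ∧ (D : eis) = -(q : eis) * D₁ ∧
    sy (-(q : eis)) (la * (D₁ * z₁)) = 1) → LZ ℚ_[q] D z

/-- C-S: the split primes dividing `D` exactly once; `x, y`: whether the primes divide `z` -/
def S_CS : Prop := ∀ (p : ℕ) [Fact p.Prime] (D D' : ℤ) (z π : eis), p % 3 = 1 → D = p * D' →
  ¬ (p : ℤ) ∣ D' → π * cj π = (p : eis) →
  ∀ s t : ZMod 2,
    (s = 0 → sy π ((-1) ^ t.val * z) = 1) →
    (s = 1 → ∃ z₁ D₁ : eis, z = π * z₁ ∧ (D : eis) = π * D₁ ∧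
      sy π ((-1) ^ t.val * (la * (D₁ * z₁))) = 1) →
    (t = 0 → sy (cj π) ((-1) ^ s.val * z) = 1) →
    (t = 1 → ∃ z₁ D₁ : eis, z = cj π * z₁ ∧ (D : eis) = cj π * D₁ ∧
      sy (cj π) ((-1) ^ s.val * (la * (D₁ * z₁))) = 1) →
    LZ ℚ_[p] D z

/-- C-3 -/
def S_C3 : Prop := ∀ (_ : Fact (Nat.Prime 3)) (D : ℤ) (z : eis), D ≠ 0 → la ∣ z - 1 → LZ ℚ_[3] D z

/-- C-2 -/
def S_C2 : Prop := ∀ (D : ℤ) (z : eis), D % 4 = 1 → ((4 : eis) ∣ z - 1 ∨ (4 : eis) ∣ z + la) →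
  LZ ℚ_[2] D z

end Pool.Agent.L0h4.T3
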