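import Pool.Agent.L0h4.T3.CvS
import Pool.Agent.L0h98.BSD.GoodPrime
import Pool.Agent.L0h98.BSD.TwoPrime

/-!
# The converse for `y² = x³ + D³`: the prime two
-/

set_option autoImplicit false
set_option linter.unusedSectionVars false

namespace Pool.Agent.L0h4.T3

open Pool.Agent.Y696 Pool.Agent.Y715.T.Lat Pool.Agent.W192.HK
open Pool.Agent.L0h86.F3
open Pool.Agent.L0h4.TC (LocZ SqZ PtZ)

section
variable {L : Type} [Field L] [CharZero L] {D : ℤ}

/-- `x + y ω` is a square -/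
def SqW (L : Type) [Field L] (x y : L) : Prop := ∃ g h : L, x = g ^ 2 - h ^ 2 ∧ y = 2 * g * h - h ^ 2

lemma SqW.mul {x y x' y' : L} (h : SqW L x y) (h' : SqW L x' y') :
    SqW L (x * x' - y * y') (x * y' + y * x' - y * y') := by
  obtain ⟨g, k, rfl, rfl⟩ := h
  obtain ⟨g', k', rfl, rfl⟩ := h'
  exact ⟨g * g' - k * k', g * k' + k * g' - k * k', by ring, by ring⟩

lemma SqW.sq (c d : L) : SqW L (c ^ 2 - d ^ 2) (2 * c * d - d ^ 2) := ⟨c, d, rfl, rfl⟩

lemma SqW.cast {x y x' y' : L} (h : SqW L x y) (e1 : x = x') (e2 : y = y') : SqW L x' y' := by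
  subst e1 e2
  exact h

lemma SqW.of_trace {x y n t : L} (hn : n ^ 2 = x ^ 2 - x * y + y ^ 2) (ht : t ^ 2 = 2 * x - y + 2 * n)
    (ht0 : t ≠ 0) : SqW L x y := by
  refine ⟨(t + y / t) / 2, y / t, ?_, ?_⟩
  · field_simp
    have e : x * (t ^ 2 * 4) = (t ^ 2 + y) ^ 2 - 4 * y ^ 2 := by
      rw [ht]
      linear_combination -4 * hn
    linear_combination e
  · field_simp
    ring

lemma SqW.sqz (hD : D ≠ 0) {x y : L} (h : SqW L x y) :
    SqZ L (-3 * D) (3 * D ^ 2) (x + y) (-(y / (D : L))) := by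
  have hD' : (D : L) ≠ 0 := by exact_mod_cast hD
  obtain ⟨g, k, rfl, rfl⟩ := h
  refine ⟨g + k, -k / D, ?_, ?_⟩
  · push_cast
    field_simp
    ring
  · push_cast
    field_simp
    ring

lemma SqW.sqz0 (hD : D ≠ 0) {x y : L} (h : SqW L (-D * (x + y)) (-D * (2 * y - x))) :
    SqZ L (-3 * D) (3 * D ^ 2) (((3 * D ^ 2 : ℤ) : L) * (-(y / (D : L))))
      (((-3 * D : ℤ) : L) * (-(y / (D : L))) - (x + y)) := by
  have hD' : (D : L) ≠ 0 := by exact_mod_cast hD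
  have h1 := h.sqz (D := D) hD
  have e1 : (-(D : L) * (x + y) + -D * (2 * y - x)) = ((3 * D ^ 2 : ℤ) : L) * (-(y / (D : L))) := by
    push_cast
    field_simp
    ring
  have e2 : -(-(D : L) * (2 * y - x) / D) = ((-3 * D : ℤ) : L) * (-(y / (D : L))) - (x + y) := by
    push_cast
    field_simp
    ring
  rw [e1, e2] at h1
  exact h1

/-- a point from a square -/
lemma ptw (hD : D ≠ 0) {x y X Y : L} (hN : x ^ 2 - x * y + y ^ 2 ≠ 0) (hY : Y ≠ 0)
    (hXY : Y ^ 2 = X * (X ^ 2 - 3 * D * X + 3 * D ^ 2))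
    (h : SqW L ((X - D) * x - D * y) ((X - D) * y + D * x - D * y)) :
    PtZ L (-3 * D) (3 * D ^ 2) (x + y) (-(y / (D : L))) := by
  have hD' : (D : L) ≠ 0 := by exact_mod_cast hD
  set N := x ^ 2 - x * y + y ^ 2 with hNd
  have h1 := (h.mul (SqW.sq ((x - y) / N) (-y / N))).sqz (D := D) hD
  refine Pool.Agent.L0h98.BSD.PtZ_of (N := N) ?_ hN hY ?_ ?_ (X := X)
  · rw [hNd]
    push_cast
    field_simp
    ring
  · rw [hXY]
    push_cast
    ring
  · have e1 : ∀ a b c d : L, a = c → b = d → SqZ L (-3 * D) (3 * D ^ 2) a b →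
        SqZ L (-3 * D) (3 * D ^ 2) c d := by
      rintro a b c d rfl rfl h
      exact h
    refine e1 _ _ _ _ ?_ ?_ h1
    · push_cast
      field_simp
      rw [hNd]
      ring
    · push_cast
      field_simp
      rw [hNd]
      ring

end

/-! ### squares over `ℚ₂(ω)` -/

lemma even_prod (l : ℤ_[2]) : ∃ s : ℤ_[2], l * (l + 1) = 2 * s := by
  have h1 : PadicInt.toZMod (l * (l + 1)) = 0 := by
    rw [map_mul, map_add, map_one]
    generalize PadicInt.toZMod l = x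
    revert x
    decide
  have h2 : ‖l * (l + 1)‖ < 1 := Pool.Agent.L0h98.BSD.toZMod_eq_zero.1 h1
  rw [PadicInt.norm_lt_one_iff_dvd] at h2
  exact_mod_cast h2

lemma hens_l (m : ℤ_[2]) : ∃ l : ℤ_[2], l * (2 * l + 1) = m := by
  let F : Polynomial ℤ_[2] := Polynomial.C 2 * Polynomial.X ^ 2 + Polynomial.X - Polynomial.C m
  have h1 : F.aeval m = 2 * m ^ 2 := by
    simp [F]
  have h3 : F.derivative.aeval m = 4 * m + 1 := by
    simp [F]
    ring
  have h4 : ‖(4 * m + 1 : ℤ_[2])‖ = 1 := by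
    apply Pool.Agent.L0h98.BSD.norm_eq_one
    rw [map_add, map_mul, map_one, map_ofNat]
    have : (4 : ZMod 2) = 0 := by decide
    rw [this, zero_mul, zero_add]
    exact one_ne_zero
  obtain ⟨l, hl, -⟩ := hensels_lemma (p := 2) (R := ℤ_[2]) (F := F) (a := m) (by
    rw [h1, h3, h4, one_pow]
    apply Pool.Agent.L0h98.BSD.toZMod_eq_zero.1
    rw [map_mul, map_ofNat]
    have : (2 : ZMod 2) = 0 := by decide
    rw [this, zero_mul])
  refine ⟨l, ?_⟩
  have : F.aeval l = 2 * l ^ 2 + l - m := by simp [F]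
  rw [this] at hl
  linear_combination hl

lemma c2Z : ((2 : ℤ_[2]) : ℚ_[2]) = 2 := rfl
lemma c8Z : ((8 : ℤ_[2]) : ℚ_[2]) = 8 := rfl
lemma c4Z : ((4 : ℤ_[2]) : ℚ_[2]) = 4 := rfl
lemma c3Z : ((3 : ℤ_[2]) : ℚ_[2]) = 3 := rfl

lemma sq8' (w : ℤ_[2]) : ∃ m : ℚ_[2], m ≠ 0 ∧ 1 + 8 * (w : ℚ_[2]) = m ^ 2 := by
  obtain ⟨t, ht⟩ := Pool.Agent.L0h98.BSD.Two.hens2 w
  have h2 := congrArg (fun z : ℤ_[2] => (z : ℚ_[2])) ht
  push_cast [c8Z] at h2
  refine ⟨(t : ℚ_[2]), ?_, h2.symm⟩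
  intro h0
  have h1 : t = 0 := Subtype.ext h0
  rw [h1] at ht
  have hpr : Prime (2 : ℤ_[2]) := by
    have := PadicInt.prime_p (p := 2)
    exact_mod_cast this
  apply hpr.not_isUnit
  exact IsUnit.of_mul_eq_one (-4 * w) (by linear_combination ht)

/-- `1 + 8 (c + d ω)` is a square -/
theorem sq18 (c d : ℤ_[2]) : SqW ℚ_[2] (1 + 8 * (c : ℚ_[2])) (8 * (d : ℚ_[2])) := by
  obtain ⟨l, hl⟩ := hens_l (2 * c + 8 * c ^ 2 - d - 8 * c * d + 8 * d ^ 2)
  obtain ⟨s, hs⟩ := even_prod l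
  obtain ⟨t, ht0, ht⟩ := sq8' (s - 2 * (c ^ 2 - c * d + d ^ 2))
  have hl' := congrArg (fun z : ℤ_[2] => (z : ℚ_[2])) hl
  have hs' := congrArg (fun z : ℤ_[2] => (z : ℚ_[2])) hs
  push_cast [c2Z, c8Z] at hl' hs' ht
  refine SqW.of_trace (n := 1 + 4 * (l : ℚ_[2])) (t := 2 * t) ?_ ?_ (mul_ne_zero two_ne_zero ht0)
  · linear_combination 8 * hl'
  · rw [mul_pow, ← ht]
    linear_combination (-16) * hs' + 8 * hl'

/-- `1 + 4 c + 8 d ω` is a square -/
theorem sq14 (c d : ℤ) : SqW ℚ_[2] (1 + 4 * (c : ℚ_[2])) (8 * (d : ℚ_[2])) := by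
  rcases Int.even_or_odd' c with ⟨k, rfl | rfl⟩
  · refine (sq18 (k : ℤ_[2]) (d : ℤ_[2])).cast ?_ ?_
    · push_cast; ring
    · push_cast; ring
  · have h1 := (sq18 ((-2 - 3 * k : ℤ) : ℤ_[2]) ((-3 * d : ℤ) : ℤ_[2])).mul
      (SqW.sq (-1 / 3 : ℚ_[2]) (-2 / 3))
    refine h1.cast ?_ ?_
    · push_cast [c2Z, c3Z]
      field_simp
      ring
    · push_cast [c2Z, c3Z]
      field_simp
      ring

/-- **the elements `1 + 4 c`** -/
theorem c2_main (D : ℤ) {x y c d : ℤ} (hx : x = 1 + 4 * c) (hy : y = 4 * d)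
    (hD : D % 2 = 1) : SqW ℚ_[2] (x : ℚ_[2]) (y : ℚ_[2]) ∨
      SqW ℚ_[2] (((1 / 4 + D : ℚ_[2]) - D) * x - D * y)
        (((1 / 4 + D : ℚ_[2]) - D) * y + D * x - D * y) := by
  rcases Int.even_or_odd' d with ⟨k, rfl | rfl⟩
  · left
    refine (sq14 c k).cast ?_ ?_
    · rw [hx]; push_cast; ring
    · rw [hy]; push_cast; ring
  · right
    obtain ⟨m, rfl⟩ : ∃ m, D = 2 * m + 1 := ⟨D / 2, by omega⟩
    have h1 := (sq14 (c - 4 * (2 * m + 1) * (2 * k + 1)) (m + k + 1 + 2 * (2 * m + 1) * (c - (2 * k + 1)))).mul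
      (SqW.sq (1 / 2 : ℚ_[2]) 0)
    refine h1.cast ?_ ?_
    · rw [hx, hy]; push_cast; ring
    · rw [hx, hy]; push_cast; ring

/-- **C-2** -/
theorem t_C2 : S_C2 := by
  intro D z hD4 hz
  have hD0 : D ≠ 0 := by rintro rfl; norm_num at hD4
  have hDQ : (D : ℚ_[2]) ≠ 0 := by exact_mod_cast hD0
  have hD2 : D % 2 = 1 := by omega
  unfold LZ
  obtain ⟨x, hx⟩ : ∃ x, x = cx z := ⟨_, rfl⟩
  obtain ⟨y, hy⟩ : ∃ y, y = cy z := ⟨_, rfl⟩
  have hzz : z = ez x y := by rw [hx, hy]; exact cxy z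
  rw [← hx, ← hy]
  -- the point with `x = 1 / 4`
  obtain ⟨t, ht0, ht⟩ := sq8' ((8 * D ^ 3 : ℤ) : ℤ_[2])
  push_cast [c8Z] at ht
  have hX : (t / 8) ^ 2 = (1 / 4 + D : ℚ_[2]) * ((1 / 4 + D) ^ 2 - 3 * D * (1 / 4 + D) + 3 * D ^ 2) := by
    rw [div_pow, ← ht]
    ring
  have hY0 : t / 8 ≠ 0 := div_ne_zero ht0 (by norm_num)
  have hX0 : (1 / 4 + D : ℚ_[2]) ≠ 0 := by
    intro h0
    rw [h0, zero_mul] at hX
    exact hY0 (pow_eq_zero_iff (n := 2) (by norm_num) |>.1 hX)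
  have hNne : x ≠ 0 → (x : ℚ_[2]) ^ 2 - x * y + y ^ 2 ≠ 0 := by
    intro hx0
    have h1 : x ^ 2 - x * y + y ^ 2 ≠ 0 := by
      intro h0
      have h2 : y ^ 2 = 0 := by nlinarith [sq_nonneg (2 * x - y), sq_nonneg y]
      have h3 : y = 0 := pow_eq_zero_iff (n := 2) (by norm_num) |>.1 h2
      rw [h3] at h0
      apply hx0
      have h4 : x ^ 2 = 0 := by linear_combination h0
      exact pow_eq_zero_iff (n := 2) (by norm_num) |>.1 h4
    exact_mod_cast h1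
  have e4 : ∀ a b : ℤ, (4 : eis) ∣ ez a b → ∃ c d : ℤ, a = 4 * c ∧ b = 4 * d := by
    rintro a b ⟨s, hs⟩
    obtain ⟨c, d, rfl⟩ := ez_ex s
    have h5 : ez a b = ez 4 0 * ez c d := by
      rw [ez_int]
      exact_mod_cast hs
    rw [ez_mul] at h5
    obtain ⟨h6, h7⟩ := ez_inj h5
    exact ⟨c, d, by rw [h6]; ring, by rw [h7]; ring⟩
  rcases hz with hz | hz
  · -- `z ≡ 1`
    have e1 : z - 1 = ez (x - 1) y := by
      rw [hzz]
      unfold ez
      push_cast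
      ring
    rw [e1] at hz
    obtain ⟨c, d, hc, hd⟩ := e4 _ _ hz
    rcases c2_main D (x := x) (y := y) (c := c) (d := d) (by omega) hd hD2 with h | h
    · exact Or.inl (h.sqz hD0)
    · exact Or.inr (Or.inr (ptw hD0 (hNne (by omega)) hY0 hX h))
  · -- `z ≡ -√-3`
    have e1 : z + la = ez (x + 1) (y + 2) := by
      rw [hzz]
      unfold la ez
      push_cast
      ring
    rw [e1] at hz
    obtain ⟨c, d, hc, hd⟩ := e4 _ _ hz
    obtain rfl' : x = 4 * c - 1 := by omega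
    obtain hy' : y = 4 * d - 2 := by omega
    obtain ⟨j, hj⟩ : ∃ j, D = 1 + 4 * j := ⟨D / 4, by omega⟩
    rcases c2_main D (x := D * (2 * y - x)) (y := D * (y - 2 * x))
        (c := D * (2 * d - c) - 3 * j - 1) (d := D * (d - 2 * c)) (by
          rw [rfl', hy']
          linear_combination (-3 : ℤ) * hj) (by rw [rfl', hy']; ring) hD2 with h | h
    · right
      left
      refine SqW.sqz0 hD0 ?_
      refine (h.mul (SqW.sq (0 : ℚ_[2]) 1)).cast ?_ ?_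
      · push_cast; ring
      · push_cast; ring
    · right
      right
      -- translation by the point of order two
      set X : ℚ_[2] := 1 / 4 + D with hXd
      set Y : ℚ_[2] := t / 8 with hYd
      have hY2 : Y ^ 2 ≠ 0 := pow_ne_zero 2 hY0
      refine ptw (X := 3 * D ^ 2 / X) (Y := -(3 * D ^ 2 * Y / X ^ 2)) hD0 (hNne (by omega)) ?_ ?_ ?_
      · exact neg_ne_zero.2 (div_ne_zero (mul_ne_zero (mul_ne_zero (by norm_num) (pow_ne_zero 2 hDQ))
          hY0) (pow_ne_zero 2 hX0))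
      · have hX' : Y ^ 2 = X * (X ^ 2 - 3 * D * X + 3 * D ^ 2) := hX
        field_simp
        linear_combination hX'
      · have h3 := (h.mul (SqW.sq (0 : ℚ_[2]) 1)).mul (SqW.sq ((X - 2 * D) / Y) (-D / Y))
        have hX' : Y ^ 2 = X * (X ^ 2 - 3 * D * X + 3 * D ^ 2) := hX
        refine h3.cast ?_ ?_
        · push_cast
          field_simp
          linear_combination (-((x : ℚ_[2]) * (D * 3 - X) - X * y)) * hX'
        · push_cast
          field_simp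
          linear_combination (-((y : ℚ_[2]) * (D * 3 - X) + X * x - X * y)) * hX'

end Pool.Agent.L0h4.T3
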