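import Pool.Agent.Y696.Jac2
import Pool.Agent.L0h4.T3.Psi

/-!
# The number of points of `y² = x³ + 1` over a finite field of the Eisenstein integers
-/

set_option autoImplicit false

open Complex

namespace Pool.Agent.L0h4.T3

open Pool.Agent.W192.HK Pool.Agent.Y696 Pool.Agent.Y715.T.Lat

section field

variable {k : Type} [Field k] [Fintype k] (ρ : eis →+* k)

lemma sub_one_dvd_pow_sub_one_of_dvd_aux (x : eis) (f : ℕ) : x - 1 ∣ x ^ f - 1 := by
  have := sub_dvd_pow_sub_pow x 1 f
  rwa [one_pow] at this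

/-- the number of solutions of `y² = x³ + 1` and the Jacobi sums -/
theorem card_pts {χ : MulChar k eis} (h : χ ^ 3 = 1) (h2 : (2 : k) ≠ 0) (h3 : (3 : k) ≠ 0)
    (hρ : ∀ x : k, x ≠ 0 → ρ (χ x) = x ^ ((Fintype.card k - 1) / 3)) :
    ((Nat.card {p : k × k // p.2 ^ 2 = p.1 ^ 3 + 1} : ℕ) : eis) =
      Fintype.card k + χ 4 * jacobiSum χ χ + χ 4 ^ 2 * jacobiSum χ⁻¹ χ⁻¹ := by
  classical
  have e1 : Nat.card {p : k × k // p.2 ^ 2 = p.1 ^ 3 + 1} =
      ∑ y : k, Nat.card {x : k // x ^ 3 = y ^ 2 - 1} := by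
    rw [← Nat.card_sigma]
    refine Nat.card_congr
      { toFun := fun p => ⟨p.1.2, p.1.1, by rw [p.2]; ring⟩
        invFun := fun p => ⟨(p.2.1, p.1), by
          have := p.2.2
          simp only
          rw [this]; ring⟩
        left_inv := fun p => rfl
        right_inv := fun p => rfl }
  have hinv : ∀ x : k, χ⁻¹ x = χ x ^ 2 := by
    intro x
    have : χ⁻¹ = χ ^ 2 := by
      rw [inv_eq_iff_mul_eq_one, ← pow_succ', h]
    rw [this, MulChar.pow_apply' _ two_ne_zero]
  let e : k ≃ k :=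
    { toFun := fun t => 1 - 2 * t
      invFun := fun y => (1 - y) / 2
      left_inv := fun t => by field_simp; ring
      right_inv := fun t => by field_simp; ring }
  have he : ∀ t : k, χ ((e t) ^ 2 - 1) = χ 4 * (χ t * χ (1 - t)) := by
    intro t
    have e2 : (e t) ^ 2 - 1 = -1 * (4 * (t * (1 - t))) := by
      show (1 - 2 * t) ^ 2 - 1 = _
      ring
    rw [e2, map_mul, chi_neg h, one_mul, map_mul, map_mul]
  rw [e1]
  push_cast
  simp only [card_cube ρ h h3 hρ]
  rw [Finset.sum_add_distrib, Finset.sum_add_distrib]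
  congr 1
  · congr 1
    · simp
    · unfold jacobiSum
      rw [← Equiv.sum_comp e, Finset.mul_sum]
      exact Finset.sum_congr rfl fun y _ => he y
  · unfold jacobiSum
    rw [← Equiv.sum_comp e, Finset.mul_sum]
    refine Finset.sum_congr rfl fun y _ => ?_
    rw [he, hinv, hinv]
    ring

/-- the number of solutions of `y² = x³ + 1` is odd -/
theorem odd_pts (h2 : (2 : k) ≠ 0) (h3 : (3 : k) ≠ 0) (ρ : eis →+* k) :
    Odd (Nat.card {p : k × k // p.2 ^ 2 = p.1 ^ 3 + 1}) := by
  classical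
  obtain ⟨χ, h, h1, hρ⟩ := exists_chi ρ h3
  let f : Function.End {p : k × k // p.2 ^ 2 = p.1 ^ 3 + 1} := fun p =>
    ⟨(p.1.1, -p.1.2), by
      have := p.2
      simp only
      rw [neg_sq]
      exact this⟩
  have hf : f ^ 2 ^ 1 = 1 := by
    rw [pow_one, pow_two]
    funext p
    apply Subtype.ext
    show ((p.1.1, - -p.1.2) : k × k) = p.1
    rw [neg_neg]
  have : Fact (Nat.Prime 2) := ⟨Nat.prime_two⟩
  have key := Equiv.Perm.card_fixedPoints_modEq (p := 2) (n := 1) hf
  have hfix : Fintype.card (Function.fixedPoints f) = Nat.card {x : k // x ^ 3 = -1} := by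
    rw [← Nat.card_eq_fintype_card]
    refine Nat.card_congr
      { toFun := fun p => ⟨p.1.1.1, by
          have h4 := congrArg (fun q => q.1.2) p.2
          have h5 : -p.1.1.2 = p.1.1.2 := h4
          have h6 : p.1.1.2 = 0 := by
            have h7 : (2 : k) * p.1.1.2 = 0 := by linear_combination -h5
            exact (mul_eq_zero.1 h7).resolve_left h2
          have h8 := p.1.2
          rw [h6] at h8
          linear_combination -h8⟩
        invFun := fun x => ⟨⟨(x.1, 0), by
          have := x.2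
          simp only
          rw [this]
          ring⟩, by
          apply Subtype.ext
          show ((x.1, -(0 : k)) : k × k) = (x.1, 0)
          rw [neg_zero]⟩
        left_inv := fun p => by
          have h4 := congrArg (fun q => q.1.2) p.2
          have h5 : -p.1.1.2 = p.1.1.2 := h4
          have h6 : p.1.1.2 = 0 := by
            have h7 : (2 : k) * p.1.1.2 = 0 := by linear_combination -h5
            exact (mul_eq_zero.1 h7).resolve_left h2
          apply Subtype.ext
          apply Subtype.ext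
          exact Prod.ext rfl h6.symm
        right_inv := fun x => rfl }
  have h5 : Nat.card {x : k // x ^ 3 = -1} = 3 := by
    have h6 := card_cube ρ h h3 hρ (-1)
    rw [chi_neg h] at h6
    have h7 : ((Nat.card {x : k // x ^ 3 = -1} : ℕ) : eis) = ((3 : ℕ) : eis) := by
      rw [h6]; norm_num
    have h8 := congrArg (fun t : eis => (t : ℂ)) h7
    push_cast at h8
    exact_mod_cast h8
  rw [hfix, h5] at key
  rw [Nat.card_eq_fintype_card, Nat.odd_iff]
  exact key

lemma two_dvd_of_mul {x y : eis} (h : (2 : eis) ∣ x * y) : (2 : eis) ∣ x ∨ (2 : eis) ∣ y := by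
  have hp : Prime (2 : eis) := by
    rw [← irreducible_iff_prime]
    exact ⟨two_not_unit, fun a b hab => two_factor hab⟩
  exact hp.dvd_or_dvd h

lemma cj_cj (x : eis) : cj (cj x) = x := by
  apply coe_inj'
  rw [cj_coe, cj_coe, Complex.conj_conj]

lemma cj_mul (x y : eis) : cj (x * y) = cj x * cj y := map_mul cjh x y

lemma cj_pow (x : eis) (n : ℕ) : cj (x ^ n) = cj x ^ n := map_pow cjh x n

lemma cj_one : cj (1 : eis) = 1 := map_one cjh

lemma cj_sub (x y : eis) : cj (x - y) = cj x - cj y := map_sub cjh x y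

lemma dvd_cj {x y : eis} (h : x ∣ y) : cj x ∣ cj y := by
  obtain ⟨t, rfl⟩ := h
  exact ⟨cj t, cj_mul x t⟩

lemma cj_two : cj (2 : eis) = 2 := map_ofNat cjh 2

lemma cj_nat (n : ℕ) : cj (n : eis) = n := map_natCast cjh n

/-- a unit congruent to one modulo `2` and modulo `√-3` is one -/
lemma unit_one {u : eis} (hu : IsUnit u) (h2 : (2 : eis) ∣ u - 1) (h3 : (la : eis) ∣ u - 1) :
    u = 1 := by
  apply unit_mod6 hu isUnit_one
  rw [Ideal.mem_span_singleton]
  obtain ⟨s, hs⟩ := h2
  rw [hs] at h3 ⊢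
  rcases la_prime.dvd_or_dvd h3 with h | h
  · exfalso
    have h4 : (la : eis) ∣ ((2 : ℤ) : eis) + ((0 : ℤ) : eis) * omr := by
      push_cast
      rw [zero_mul, add_zero]
      exact h
    have := (la_dvd_iff 2 0).1 h4
    norm_num at this
  · exact mul_dvd_mul_left _ h

/-- **the number of solutions of `y² = x³ + 1`** -/
theorem card_one (h2 : (2 : k) ≠ 0) (h3 : (3 : k) ≠ 0) {π : eis} (hπ : Prime π)
    (hπ1 : π - 1 ∈ (sp (2 * la) : Ideal eis)) (hker : ∀ x, ρ x = 0 ↔ π ∣ x) {f : ℕ}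
    (hq : ((Fintype.card k : ℕ) : eis) = (π * cj π) ^ f) :
    ((Nat.card {p : k × k // p.2 ^ 2 = p.1 ^ 3 + 1} : ℕ) : eis) =
      Fintype.card k - π ^ f - (cj π) ^ f := by
  classical
  obtain ⟨χ, h, h1, hρ⟩ := exists_chi ρ h3
  rw [Ideal.mem_span_singleton] at hπ1
  have hl1 : (la : eis) ∣ π - 1 := (Dvd.intro_left _ rfl).trans hπ1
  have ht1 : (2 : eis) ∣ π - 1 := (Dvd.intro _ rfl).trans hπ1
  -- the generator congruent to one modulo three
  have hc3 : IsCoprime π 3 := by
    have h4 : IsCoprime π la := by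
      obtain ⟨t, ht⟩ := hl1
      exact ⟨1, -t, by linear_combination ht⟩
    have h5 : IsCoprime π (la * la) := h4.mul_right h4
    rw [la_sq] at h5
    exact (IsCoprime.neg_right_iff _ _).1 h5
  obtain ⟨u, hu, hu'⟩ := cop_three hc3
  obtain ⟨w, hw⟩ := hu.exists_right_inv
  have hwu : IsUnit w := IsUnit.of_mul_eq_one u (by rw [mul_comm]; exact hw)
  have hp3 : w * π - 1 ∈ (sp 3 : Ideal eis) := by
    have := (sp 3 : Ideal eis).mul_mem_left w hu'
    rwa [mul_sub, mul_comm w u, hw] at this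
  have hprime : Prime (w * π) := by
    have : Associated (w * π) π := (associated_unit_mul_left π w hwu)
    exact this.symm.prime hπ
  have hker' : ∀ x, ρ x = 0 ↔ w * π ∣ x := by
    intro x
    rw [hker, hwu.mul_left_dvd]
  have hwcj : w * cj w = 1 := by
    apply coe_inj'
    rw [cj_mul_coe, (isUnit_iff' w).1 hwu]
    simp
  have hq' : ((Fintype.card k : ℕ) : eis) = ((w * π) * cj (w * π)) ^ f := by
    rw [hq, cj_mul]
    congr 1
    linear_combination -(π * cj π) * hwcj
  obtain ⟨j1, j2⟩ := jac_eq ρ h3 h h1 hρ hprime hp3 hker' hq'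
  have h4 := card_pts ρ h h2 h3 hρ
  rw [j1, j2] at h4
  have h40 : (4 : k) ≠ 0 := by
    have : (4 : k) = 2 * 2 := by norm_num
    rw [this]
    exact mul_ne_zero h2 h2
  have hx3 : χ 4 ^ 3 = 1 := chi_one h h40
  have hxu : IsUnit (χ 4) := IsUnit.of_mul_eq_one (χ 4 ^ 2) (by rw [← pow_succ']; exact hx3)
  have hxcj : χ 4 * cj (χ 4) = 1 := by
    apply coe_inj'
    rw [cj_mul_coe, (isUnit_iff' _).1 hxu]
    simp
  have hx2 : χ 4 ^ 2 = cj (χ 4) := by
    have : χ 4 ^ 2 = χ 4 ^ 2 * (χ 4 * cj (χ 4)) := by rw [hxcj, mul_one]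
    rw [this, ← mul_assoc, ← pow_succ, hx3, one_mul]
  -- the unit
  set z : eis := χ 4 * w ^ f with hz
  have hzu : IsUnit z := hxu.mul (hwu.pow f)
  have hzcj : z * cj z = 1 := by
    apply coe_inj'
    rw [cj_mul_coe, (isUnit_iff' _).1 hzu]
    simp
  have h5 : ((Nat.card {p : k × k // p.2 ^ 2 = p.1 ^ 3 + 1} : ℕ) : eis) =
      Fintype.card k - z * π ^ f - cj z * (cj π) ^ f := by
    rw [h4, hz, cj_mul, cj_mul, cj_pow, mul_pow, mul_pow, hx2]
    ring
  obtain ⟨M, hM⟩ := odd_pts h2 h3 ρ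
  have hβ : (z * π ^ f - 1) * (cj z * cj π ^ f - 1) =
      2 * ((M : eis) + 1) := by
    have h6 : ((Nat.card {p : k × k // p.2 ^ 2 = p.1 ^ 3 + 1} : ℕ) : eis) = 2 * (M : eis) + 1 := by
      rw [hM]; push_cast; ring
    rw [h6] at h5
    have h7 : (z * π ^ f) * (cj z * cj π ^ f) = Fintype.card k := by
      rw [hq, mul_pow]
      linear_combination (π ^ f * cj π ^ f) * hzcj
    linear_combination h7 - h5
  have h8 : (2 : eis) ∣ z * π ^ f - 1 := by
    rcases two_dvd_of_mul (Dvd.intro _ hβ.symm) with h8 | h8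
    · exact h8
    · have h9 := dvd_cj h8
      rw [cj_two, cj_sub, cj_mul, cj_cj, cj_pow, cj_cj, cj_one] at h9
      exact h9
  have hpf : ∀ d : eis, d ∣ π - 1 → d ∣ π ^ f - 1 := fun d hd =>
    hd.trans (sub_one_dvd_pow_sub_one_of_dvd_aux π f)
  have h9 : (2 : eis) ∣ z - 1 := by
    have h10 := hpf 2 ht1
    have e : z - 1 = (z * π ^ f - 1) - z * (π ^ f - 1) := by ring
    rw [e]
    exact dvd_sub h8 (h10.mul_left z)
  have h10 : (la : eis) ∣ z - 1 := by
    have l1 : (la : eis) ∣ χ 4 - 1 := by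
      have e : (χ 4 - 1) * (χ 4 ^ 2 + χ 4 + 1) = 0 := by linear_combination hx3
      rcases mul_eq_zero.1 e with e | e
      · rw [e]; exact dvd_zero _
      · have e2 : (χ 4 - 1) ^ 2 = la * (la * χ 4) := by
          rw [← mul_assoc, la_sq]
          linear_combination e
        exact la_prime.dvd_of_dvd_pow (Dvd.intro _ e2.symm)
    have l2 : (la : eis) ∣ w - 1 := by
      have l3 : (la : eis) ∣ w * π - 1 := by
        have l4 : (3 : eis) ∣ w * π - 1 := Ideal.mem_span_singleton.1 hp3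
        refine dvd_trans ⟨-la, ?_⟩ l4
        linear_combination la_sq
      have e : w - 1 = (w * π - 1) - w * (π - 1) := by ring
      rw [e]
      exact dvd_sub l3 (hl1.mul_left w)
    have l5 : (la : eis) ∣ w ^ f - 1 := l2.trans (sub_one_dvd_pow_sub_one_of_dvd_aux w f)
    have e : z - 1 = (χ 4 - 1) * w ^ f + (w ^ f - 1) := by rw [hz]; ring
    rw [e]
    exact dvd_add (l1.mul_right _) l5
  rw [h5, unit_one hzu h9 h10, cj_one, one_mul, one_mul]

end field

end Pool.Agent.L0h4.T3
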