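import Pool.Agent.L0h4.T3.Ker
import Pool.Agent.L0h4.T3.C2
import Pool.Agent.L0h4.T3.Psi
import Pool.Agent.L0h4.TC.Fin
import Pool.Agent.L0h86.F1.Tor

/-!
# The algebraic converse for `y² = x³ + D³`
-/

set_option autoImplicit false
set_option linter.unusedSectionVars false

namespace Pool.Agent.L0h4.T3

open Pool.Agent.Y696 Pool.Agent.Y715.T.Lat Pool.Agent.W192.HK
open Pool.Agent.L0h86.F3
open NumberField IsDedekindDomain IsCyclotomicExtension.Rat WithZero WeierstrassCurve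
open Pool.Agent.H921R2.TatePole Pool.Agent.H82R3.EK
open Pool.Agent.L0h4.TC (LocZ SqZ PtZ)
open Pool.Agent.Y698.SG (lg lg_one lg_neg_one lg_mul sgn_mul sgn_prod ix)
open Pool.Agent.Y698.SG.Cv (WF)
open Pool.Agent.TH841.NF.D (Sha)
open Pool.Agent.L0h80.F3 (N1_prod ix_cases fx prod_pf sum_bt mem_ix bt_cj cj_neg cj_add cj_ez)
open Pool.Agent.L0h23.FDE (cI eD cI_mem cI_cI pf_cI)
open Pool.Agent.L0h86.F1 (WM vr_WM WM_ne)

/-! ### the norm -/

/-- the norm -/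
noncomputable def nz (z : eis) : ℤ := cx z ^ 2 - cx z * cy z + cy z ^ 2

lemma nz_ez (a b : ℤ) : nz (ez a b) = a ^ 2 - a * b + b ^ 2 := by
  unfold nz
  rw [cx_ez, cy_ez]

lemma nz_mul (x y : eis) : nz (x * y) = nz x * nz y := by
  obtain ⟨a, b, rfl⟩ := ez_ex x
  obtain ⟨c, d, rfl⟩ := ez_ex y
  rw [ez_mul, nz_ez, nz_ez, nz_ez]
  ring

lemma nz_int (n : ℤ) : nz (n : eis) = n ^ 2 := by
  rw [← ez_int, nz_ez]
  ring

lemma nz_neg (x : eis) : nz (-x) = nz x := by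
  have h1 : (-x : eis) = ((-1 : ℤ) : eis) * x := by push_cast; ring
  rw [h1, nz_mul, nz_int]
  ring

lemma nz_pos {x : eis} (hx : x ≠ 0) : 0 < nz x := by
  obtain ⟨a, b, rfl⟩ := ez_ex x
  rw [nz_ez]
  by_contra h
  apply hx
  have h1 : b ^ 2 = 0 := by nlinarith [sq_nonneg (2 * a - b), sq_nonneg b]
  have h2 : b = 0 := pow_eq_zero_iff (n := 2) (by norm_num) |>.1 h1
  subst h2
  have h3 : a ^ 2 = 0 := by nlinarith [sq_nonneg a]
  have h4 : a = 0 := pow_eq_zero_iff (n := 2) (by norm_num) |>.1 h3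
  subst h4
  rw [ez_int]
  simp

lemma cx_mul (x y : eis) : cx (x * y) = cx x * cx y - cy x * cy y ∧
    cy (x * y) = cx x * cy y + cy x * cx y - cy x * cy y := by
  obtain ⟨a, b, rfl⟩ := ez_ex x
  obtain ⟨c, d, rfl⟩ := ez_ex y
  rw [ez_mul]
  simp only [cx_ez, cy_ez]
  exact ⟨trivial, trivial⟩

lemma cx_int (n : ℤ) : cx (n : eis) = n ∧ cy (n : eis) = 0 := by
  rw [← ez_int]
  exact ⟨cx_ez _ _, cy_ez _ _⟩

lemma eis_ext {x y : eis} (h1 : cx x = cx y) (h2 : cy x = cy y) : x = y := by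
  rw [cxy x, cxy y, h1, h2]

/-! ### not a square -/

/-- parity of the multiplicity -/
lemma mul_odd {π W n z : eis} (hπ : Prime π) (hn : n ≠ 0) (h1 : π ∣ z) (h2 : ¬ π ^ 2 ∣ z)
    (h : W * W = n * n * z) : False := by
  have hz : z ≠ 0 := by
    rintro rfl
    exact h2 (dvd_zero _)
  have hW : W ≠ 0 := by
    rintro rfl
    rw [mul_zero] at h
    exact mul_ne_zero (mul_ne_zero hn hn) hz h.symm
  have fin : ∀ x : eis, x ≠ 0 → FiniteMultiplicity π x := fun x hx =>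
    FiniteMultiplicity.of_not_isUnit hπ.not_isUnit hx
  have e1 : multiplicity π (W * W) = multiplicity π W + multiplicity π W :=
    multiplicity_mul hπ (fin _ (mul_ne_zero hW hW))
  have e2 : multiplicity π (n * n * z) = multiplicity π (n * n) + multiplicity π z :=
    multiplicity_mul hπ (fin _ (mul_ne_zero (mul_ne_zero hn hn) hz))
  have e3 : multiplicity π (n * n) = multiplicity π n + multiplicity π n :=
    multiplicity_mul hπ (fin _ (mul_ne_zero hn hn))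
  have e4 : multiplicity π z = 1 :=
    multiplicity_eq_of_dvd_of_not_dvd (by rw [pow_one]; exact h1) h2
  rw [h, e2, e3, e4] at e1
  omega

/-- an element with a prime of odd multiplicity is not a square in the field -/
lemma no_sq {π z : eis} (hπ : Prime π) (h1 : π ∣ z) (h2 : ¬ π ^ 2 ∣ z) {A B : ℚ}
    (e1 : A ^ 2 - B ^ 2 = cx z) (e2 : 2 * A * B - B ^ 2 = cy z) : False := by
  have hA : A * A.den = A.num := Rat.mul_den_eq_num A
  have hB : B * B.den = B.num := Rat.mul_den_eq_num B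
  set n : ℤ := (A.den : ℤ) * B.den with hn
  set a' : ℤ := A.num * B.den with ha'
  set b' : ℤ := B.num * A.den with hb'
  have hn0 : n ≠ 0 := by
    rw [hn]
    exact mul_ne_zero (by exact_mod_cast A.den_nz) (by exact_mod_cast B.den_nz)
  have hAn : A * n = a' := by
    rw [hn, ha']
    push_cast
    rw [← hA]
    ring
  have hBn : B * n = b' := by
    rw [hn, hb']
    push_cast
    rw [← hB]
    ring
  have f1 : a' ^ 2 - b' ^ 2 = n ^ 2 * cx z := by
    have : ((a' ^ 2 - b' ^ 2 : ℤ) : ℚ) = ((n ^ 2 * cx z : ℤ) : ℚ) := by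
      push_cast
      rw [← hAn, ← hBn, ← e1]
      ring
    exact_mod_cast this
  have f2 : 2 * a' * b' - b' ^ 2 = n ^ 2 * cy z := by
    have : ((2 * a' * b' - b' ^ 2 : ℤ) : ℚ) = ((n ^ 2 * cy z : ℤ) : ℚ) := by
      push_cast
      rw [← hAn, ← hBn, ← e2]
      ring
    exact_mod_cast this
  refine mul_odd hπ (W := ez a' b') (n := ((n : ℤ) : eis)) ?_ h1 h2 ?_
  · intro h0
    have := (cx_int n).1
    rw [h0] at this
    have h3 := (cx_int 0).1
    push_cast at h3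
    exact hn0 (this.symm.trans h3)
  · have g1 := cx_mul (ez a' b') (ez a' b')
    rw [cx_ez, cy_ez] at g1
    have g2 : ((n : ℤ) : eis) * ((n : ℤ) : eis) = ((n * n : ℤ) : eis) := by push_cast; rfl
    have g3 := cx_mul ((n * n : ℤ) : eis) z
    rw [(cx_int _).1, (cx_int _).2] at g3
    rw [g2]
    refine eis_ext ?_ ?_
    · rw [g1.1, g3.1]
      linear_combination f1
    · rw [g1.2, g3.2]
      linear_combination f2

section
variable {D : ℤ} (hD0 : D ≠ 0) {z : eis}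

include hD0 in
/-- the class is not the class of `O` -/
theorem n1_of {π : eis} (hπ : Prime π) (h1 : π ∣ z) (h2 : ¬ π ^ 2 ∣ z) :
    ¬ SqZ ℚ (-3 * D) (3 * D ^ 2) ((cx z : ℚ) + (cy z : ℚ)) (-((cy z : ℚ) / D)) := by
  have hD : (D : ℚ) ≠ 0 := by exact_mod_cast hD0
  rintro ⟨g, h, e1, e2⟩
  push_cast at e1 e2
  have e3 : (cy z : ℚ) = -(D * (2 * g * h + 3 * D * h ^ 2)) := by
    field_simp at e2
    linear_combination -e2
  refine no_sq hπ h1 h2 (A := g + D * h) (B := -(D * h)) ?_ ?_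
  · linear_combination -e1 + e3
  · linear_combination -e3

include hD0 in
/-- the class is not the class of `(0, 0)` -/
theorem n2_of (h3 : ¬ la ∣ (D : eis)) (hz : ¬ la ∣ z) :
    ¬ SqZ ℚ (-3 * D) (3 * D ^ 2) (((3 * D ^ 2 : ℤ) : ℚ) * (-((cy z : ℚ) / D)))
      (((-3 * D : ℤ) : ℚ) * (-((cy z : ℚ) / D)) - ((cx z : ℚ) + (cy z : ℚ))) := by
  have hD : (D : ℚ) ≠ 0 := by exact_mod_cast hD0
  rintro ⟨g, h, e1, e2⟩
  push_cast at e1 e2
  have e1' : -3 * D * (cy z : ℚ) = g ^ 2 - 3 * D ^ 2 * h ^ 2 := by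
    rw [← e1]
    field_simp
  have e2' : 2 * (cy z : ℚ) - cx z = 2 * g * h + 3 * D * h ^ 2 := by
    have : 3 * (cy z : ℚ) - (cx z + cy z) = 2 * g * h - (-3 * D) * h ^ 2 := by
      rw [← e2]
      field_simp
    linear_combination this
  set w : eis := ((-D : ℤ) : eis) * (ez 1 (-1) * z) with hw
  have hwc : cx w = -D * (cx z + cy z) ∧ cy w = -D * (2 * cy z - cx z) := by
    have k1 := cx_mul (ez 1 (-1)) z
    rw [cx_ez, cy_ez] at k1
    have k2 := cx_mul ((-D : ℤ) : eis) (ez 1 (-1) * z)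
    rw [(cx_int (-D)).1, (cx_int (-D)).2, k1.1, k1.2] at k2
    rw [hw, k2.1, k2.2]
    constructor <;> ring
  have hu : ez 1 (-1) = la * ez (-1) (-1) := by
    unfold la
    rw [ez_mul]
    congr 1
  have hu1 : IsUnit (ez (-1) (-1)) := by
    refine IsUnit.of_mul_eq_one (ez 0 1) ?_
    rw [ez_mul, ← ez_one]
    congr 1
  have hw2 : w = la * (((-D : ℤ) : eis) * (ez (-1) (-1) * z)) := by
    rw [hw, hu]
    ring
  refine no_sq la_prime (z := w) (A := g + D * h) (B := -(D * h)) ?_ ?_ ?_ ?_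
  · rw [hw2]
    exact dvd_mul_right _ _
  · intro h5
    rw [hw2, pow_two] at h5
    have h6 := (mul_dvd_mul_iff_left la_prime.ne_zero).1 h5
    rcases la_prime.dvd_or_dvd h6 with h7 | h7
    · apply h3
      have e : ((-D : ℤ) : eis) = -(D : eis) := by push_cast; rfl
      rwa [e, dvd_neg] at h7
    · rcases la_prime.dvd_or_dvd h7 with h8 | h8
      · exact la_prime.not_isUnit (isUnit_of_dvd_unit h8 hu1)
      · exact hz h8
  · rw [hwc.1]
    push_cast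
    linear_combination -e1' - D * e2'
  · rw [hwc.2]
    push_cast
    linear_combination D * e2'

end

/-! ### the element -/

section
variable {Q P : Finset ℕ} {ϖ : ℕ → eis} {T : Finset (ℕ × Bool)} {D : ℕ}

lemma N1_zT (h : Dt Q P ϖ) (hT : T ⊆ ix Q P) : N1 (zT Q ϖ T) :=
  (N1_prod fun i hi => ((fx h).pd i (hT hi)).n1).1

lemma eps_prod (h : Dt Q P ϖ) (hD : D = ∏ q ∈ Q ∪ P, q) :
    (((D : ℕ) : ℤ) : eis) = (-1) ^ (eD D).val * ∏ i ∈ ix Q P, pf Q ϖ i := by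
  unfold eD
  rcases prod_pf h hD with ⟨h1, h2⟩ | ⟨h1, h2⟩
  · rw [h1, if_pos h2, ZMod.val_zero, pow_zero, one_mul, Int.cast_natCast]
  · rw [h1, if_neg (by omega), show ZMod.val (1 : ZMod 2) = 1 from rfl, pow_one, Int.cast_natCast]
    ring

/-- the norm divides the square of `D` -/
lemma nz_zT (h : Dt Q P ϖ) (hD : D = ∏ q ∈ Q ∪ P, q) (hT : T ⊆ ix Q P) :
    nz (zT Q ϖ T) ∣ ((D : ℕ) : ℤ) ^ 2 := by
  classical
  have h0 : zT Q ϖ (ix Q P \ T) * zT Q ϖ T = ∏ i ∈ ix Q P, pf Q ϖ i := by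
    unfold zT
    rw [Finset.prod_sdiff hT]
  have h1 : nz (∏ i ∈ ix Q P, pf Q ϖ i) = ((D : ℕ) : ℤ) ^ 2 := by
    rcases prod_pf h hD with ⟨h1, -⟩ | ⟨h1, -⟩
    · rw [h1, ← Int.cast_natCast, nz_int]
    · rw [h1, nz_neg, ← Int.cast_natCast, nz_int]
  have h2 := congrArg nz h0
  rw [nz_mul, h1] at h2
  exact ⟨_, by rw [← h2]; ring⟩

lemma D_ne' (h : Dt Q P ϖ) (hD : D = ∏ q ∈ Q ∪ P, q) : D ≠ 0 := Pool.Agent.L0h23.FDE.D_ne h hD

lemma D3 (h : Dt Q P ϖ) (hD : D = ∏ q ∈ Q ∪ P, q) : D % 3 ≠ 0 := by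
  rcases prod_pf h hD with ⟨-, h1⟩ | ⟨-, h1⟩ <;> omega

/-- a prime which divides the element exactly once -/
lemma zT_prime (h : Dt Q P ϖ) (hT : T ⊆ ix Q P) (hne : T.Nonempty) :
    ∃ π : eis, Prime π ∧ π ∣ zT Q ϖ T ∧ ¬ π ^ 2 ∣ zT Q ϖ T := by
  classical
  obtain ⟨i, hi⟩ := hne
  have hp := ((fx h).pd i (hT hi)).pr
  refine ⟨pf Q ϖ i, hp, Finset.dvd_prod_of_mem _ hi, ?_⟩
  intro h1
  unfold zT at h1
  rw [← Finset.mul_prod_erase _ _ hi, pow_two] at h1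
  have h2 := (mul_dvd_mul_iff_left hp.ne_zero).1 h1
  obtain ⟨j, hj, hj2⟩ := (Prime.dvd_finsetProd_iff hp _).1 h2
  rw [Finset.mem_erase] at hj
  apply (fx h).ne j (hT hj.2) i (hT hi) hj.1
  exact Ideal.mem_span_singleton.2 hj2

lemma la_zT (h : Dt Q P ϖ) (hT : T ⊆ ix Q P) : la ∣ zT Q ϖ T - 1 := by
  obtain ⟨u, hu⟩ := N1_zT h hT
  rw [hu]
  exact ⟨2 * u, by ring⟩

lemma la_nzT (h : Dt Q P ϖ) (hT : T ⊆ ix Q P) : ¬ la ∣ zT Q ϖ T := by
  intro h1
  have h2 := dvd_sub h1 (la_zT h hT)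
  rw [sub_sub_cancel] at h2
  exact la_prime.not_isUnit (isUnit_of_dvd_one h2)

/-- locally solvable everywhere -/
theorem loc_ev (hCG : S_CG) (hCI : S_CI) (hCS : S_CS) (hC3 : S_C3) (h : Dt Q P ϖ)
    (hD : D = ∏ q ∈ Q ∪ P, q) (h4 : D % 4 = 1) {x : ℕ × Bool → ZMod 2}
    (hK : Kn Q P ϖ (eD D) x) (p : ℕ) [hp : Fact p.Prime] :
    LZ ℚ_[p] D (zT Q ϖ (TT Q P x)) := by
  classical
  have hDN := D_ne' h hD
  have hDZ : ((D : ℕ) : ℤ) ≠ 0 := by exact_mod_cast hDN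
  have hpr := eps_prod h hD
  by_cases h2 : p = 2
  · subst h2
    refine t_C2 _ _ (by omega) (mod4_of (N1_zT h (TT_sub x)) (sum_la h hK ?_))
    rw [sum_bt h hD h4]
    unfold eD
    split_ifs
    · rw [map_zero]
    · rw [map_one]
  by_cases h3 : p = 3
  · subst h3
    exact hC3 hp _ _ hDZ (la_zT h (TT_sub x))
  by_cases hQ : p ∈ Q
  · have hI := h.q p hQ
    have hj : (p, false) ∈ ix Q P := mem_ix.2 (Or.inl ⟨rfl, hQ⟩)
    have hc : cI Q (p, false) = (p, false) := if_pos hQ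
    have hpf : pf Q ϖ (p, false) = -(p : eis) := if_pos hQ
    have hπ := ((fx h).pd _ hj).pr
    refine hCI p _ _ hI.odd hI.m3 hDZ ?_
    rcases z2 (x (p, false)) with h5 | h5
    · left
      have h6 := sy_out h hK hj h5
      rw [hc, h5, ZMod.val_zero, pow_zero, one_mul, hpf] at h6
      exact h6
    · right
      obtain ⟨z₁, D₁, e1, e2, e3⟩ := sy_in h hK hj h5 hpr
      rw [hc, h5, show ZMod.val (1 : ZMod 2) = 1 from rfl, pow_one, sy_mul' hπ] at e3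
      have e4 : sy (pf Q ϖ (p, false)) (-1) = 1 := by
        refine (sg_neg h hj).1.one ?_
        rw [(sg_neg h hj).2, nb_self h hj hc]
      rw [e4, one_mul] at e3
      rw [hpf] at e1 e2 e3
      exact ⟨z₁, D₁, e1, e2, e3⟩
  by_cases hP : p ∈ P
  · have hi : (p, false) ∈ ix Q P := mem_ix.2 (Or.inr hP)
    have hj : (p, true) ∈ ix Q P := mem_ix.2 (Or.inr hP)
    have hPm : p ∈ Q ∪ P := Finset.mem_union_right _ hP
    have hci : cI Q (p, false) = (p, true) := if_neg hQ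
    have hcj : cI Q (p, true) = (p, false) := if_neg hQ
    have hpi : pf Q ϖ (p, false) = ϖ p := if_neg hQ
    have hpj : pf Q ϖ (p, true) = cj (ϖ p) := if_neg hQ
    have hDe : D = p * ∏ q ∈ (Q ∪ P).erase p, q := by
      rw [hD, Finset.mul_prod_erase (Q ∪ P) (fun q => q) hPm]
    refine hCS p _ ((∏ q ∈ (Q ∪ P).erase p, q : ℕ) : ℤ) _ (ϖ p) (h.p p hP).m3 ?_ ?_ (h.nm p hP)
      (x (p, false)) (x (p, true)) ?_ ?_ ?_ ?_
    · exact_mod_cast hDe
    · intro h5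
      have h6 : p ∣ ∏ q ∈ (Q ∪ P).erase p, q := by exact_mod_cast h5
      obtain ⟨q, hq, hpq⟩ := (Prime.dvd_finsetProd_iff hp.out.prime _).1 h6
      rw [Finset.mem_erase, Finset.mem_union] at hq
      have hqp : q.Prime := hq.2.elim (fun h7 => (h.q q h7).pr) (fun h7 => (h.p q h7).pr)
      exact hq.1 ((Nat.prime_dvd_prime_iff_eq hp.out hqp).1 hpq).symm
    · intro h5
      have h6 := sy_out h hK hi h5
      rw [hci, hpi] at h6
      exact h6
    · intro h5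
      have h6 := sy_in h hK hi h5 hpr
      rw [hci, hpi] at h6
      exact h6
    · intro h5
      have h6 := sy_out h hK hj h5
      rw [hcj, hpj] at h6
      exact h6
    · intro h5
      have h6 := sy_in h hK hj h5 hpr
      rw [hcj, hpj] at h6
      exact h6
  have hpD : ¬ p ∣ D := by
    rw [hD]
    intro h5
    obtain ⟨q, hq, hpq⟩ := (Prime.dvd_finsetProd_iff hp.out.prime _).1 h5
    rw [Finset.mem_union] at hq
    have hqp : q.Prime := hq.elim (fun h7 => (h.q q h7).pr) (fun h7 => (h.p q h7).pr)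
    have h6 := (Nat.prime_dvd_prime_iff_eq hp.out hqp).1 hpq
    rw [← h6] at hq
    exact hq.elim hQ hP
  refine hCG p _ _ h2 h3 (fun h5 => hpD (by exact_mod_cast h5)) ?_
  intro h5
  have h6 : (p : ℤ) ∣ nz (zT Q ϖ (TT Q P x)) := h5
  have h7 := (Nat.prime_iff_prime_int.1 hp.out).dvd_of_dvd_pow (h6.trans (nz_zT h hD (TT_sub x)))
  exact hpD (by exact_mod_cast h7)

/-- **the converse** -/
theorem conv (hCG : S_CG) (hCI : S_CI) (hCS : S_CS) (hC3 : S_C3) (h : Dt Q P ϖ)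
    (hD : D = ∏ q ∈ Q ∪ P, q) (h4 : D % 4 = 1) (hns : ¬ Pool.Agent.L0h23.FDE.Sys Q P ϖ (eD D))
    (hf : Finite (WM ℚ D).toAffine.Point) :
    ∃ y : Sha (WM ℚ D), y ≠ 0 ∧ y + y = 0 := by
  classical
  obtain ⟨x, hK⟩ := exists_Kn hns
  obtain ⟨z, hz⟩ : ∃ z, z = zT Q ϖ (TT Q P x) := ⟨_, rfl⟩
  have hD0 := D_ne' h hD
  have hDZ : (D : ℤ) ≠ 0 := by exact_mod_cast hD0
  have hDQ : (((D : ℕ) : ℤ) : ℚ) ≠ 0 := by exact_mod_cast hD0
  have hloc : ∀ (p : ℕ) [Fact p.Prime], LZ ℚ_[p] D z := fun p _ => by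
    rw [hz]
    exact loc_ev hCG hCI hCS hC3 h hD h4 hK p
  have hne : (TT Q P x).Nonempty := by
    obtain ⟨i, hi, h1⟩ := hK.nz
    exact ⟨i, mem_TT.2 ⟨hi, (z2 (x i)).resolve_left h1⟩⟩
  obtain ⟨π₁, p1, a1, b1⟩ := zT_prime h (TT_sub x) hne
  rw [← hz] at a1 b1
  have hz0 : z ≠ 0 := by
    intro h0
    rw [h0] at b1
    exact b1 (dvd_zero _)
  have hlaD : ¬ la ∣ ((D : ℤ) : eis) := by
    intro h1
    have h2 := D3 h hD
    have h3 := (la_dvd_iff (D : ℤ) 0).1 (by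
      have e : ((D : ℤ) : eis) + ((0 : ℤ) : eis) * omr = ((D : ℤ) : eis) := by push_cast; ring
      rw [e]
      exact h1)
    omega
  have hlaz : ¬ la ∣ z := by
    rw [hz]
    exact la_nzT h (TT_sub x)
  have hb : 3 * (D : ℤ) ^ 2 ≠ 0 := mul_ne_zero (by norm_num) (pow_ne_zero 2 hDZ)
  have hab : (-3 * (D : ℤ)) ^ 2 - 4 * (3 * (D : ℤ) ^ 2) < 0 := by
    have : 0 < (D : ℤ) ^ 2 := by positivity
    nlinarith
  have nb : ¬ IsSquare ((3 * (D : ℤ) ^ 2 : ℤ) : ℚ) := by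
    rintro ⟨s, hs⟩
    have h5 : IsSquare (3 : ℚ) := by
      refine ⟨s / D, ?_⟩
      push_cast at hs hDQ
      field_simp
      linear_combination hs
    have h6 : IsSquare (3 : ℤ) := by
      have h7 : IsSquare ((3 : ℤ) : ℚ) := by exact_mod_cast h5
      exact Rat.isSquare_intCast_iff.1 h7
    obtain ⟨t, ht⟩ := h6
    have h8 : t < 2 := by nlinarith
    have h9 : -2 < t := by nlinarith
    interval_cases t <;> omega
  have nab : ¬ IsSquare (((-3 * (D : ℤ) : ℤ) : ℚ) ^ 2 - 4 * ((3 * (D : ℤ) ^ 2 : ℤ) : ℚ)) := by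
    rintro ⟨s, hs⟩
    push_cast at hs hDQ
    have h5 : 0 < (D : ℚ) ^ 2 := by positivity
    nlinarith [mul_self_nonneg s]
  have hV := vr_WM ℚ D
  have hVD := WM_ne ℚ hD0
  have hfW : Finite (WF ℚ (-3 * (D : ℤ)) (3 * (D : ℤ) ^ 2)).toAffine.Point :=
    Finite.of_equiv _ (hV.equiv hVD).toEquiv
  obtain ⟨y, hy0, hy2⟩ := Pool.Agent.L0h23.SZ.Ad.exists_shaZ (K := ℚ) hb hab nb nab hfW
    (u := (cx z : ℚ) + (cy z : ℚ)) (v := -((cy z : ℚ) / ((D : ℕ) : ℤ)))
    (by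
      have h5 : (nz z : ℚ) ≠ 0 := by
        have := nz_pos hz0
        exact_mod_cast this.ne'
      intro h6
      apply h5
      rw [← h6]
      unfold nz
      push_cast
      push_cast at hDQ
      field_simp
      ring)
    (by
      intro w
      have : Fact (below w : ℕ).Prime := ⟨(below w).2⟩
      have h5 := (hloc (below w : ℕ)).map (Pool.Agent.Y698.SG.Th.pth (v := w) (p := (below w : ℕ)) (nm_eq w).2.2)
      simp only [map_add, map_mul, map_div₀, map_intCast, map_ofNat, map_neg] at h5 ⊢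
      exact h5)
    (n1_of hDZ p1 a1 b1) (n2_of hDZ hlaD hlaz)
  have hI := (Pool.Agent.Y655.XT.isoVR hV hVD).sha
  refine ⟨hI.symm y, fun h5 => hy0 ?_, ?_⟩
  · have := congrArg hI h5
    rwa [AddEquiv.apply_symm_apply, map_zero] at this
  · rw [← map_add, hy2, map_zero]

end

end Pool.Agent.L0h4.T3
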