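import Pool.Agent.L0h4.T3.CvS
import Pool.Agent.L0h80.F3.Hcd
import Pool.Agent.L0h23.FD.Fin
import Pool.Agent.L0h23.FR.Rec

/-!
# The converse for `y² = x³ + D³`: the element of a solution of the linear system
-/

set_option autoImplicit false
set_option linter.unusedSectionVars false

namespace Pool.Agent.L0h4.T3

open Pool.Agent.Y696 Pool.Agent.Y715.T.Lat Pool.Agent.W192.HK
open Pool.Agent.L0h86.F3
open Pool.Agent.L0h4.TC (LocZ SqZ PtZ)
open Pool.Agent.Y698.SG (lg lg_one lg_neg_one lg_mul sgn_mul sgn_prod ix)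
open Pool.Agent.L0h80.F3 (N1_prod ix_cases fx prod_pf sum_bt mem_ix bt_cj cj_neg cj_add cj_ez)
open Pool.Agent.L0h23.FDE (cI eD cI_mem cI_cI pf_cI)

lemma z2 (a : ZMod 2) : a = 0 ∨ a = 1 := by
  revert a
  decide

lemma z2_self (a : ZMod 2) : a + a = 0 := by
  revert a
  decide

/-- the symbol is a sign -/
def SG (π x : eis) : Prop := sy π x = 1 ∨ sy π x = -1

lemma SG.mul {π x y : eis} (hπ : Prime π) (hx : SG π x) (hy : SG π y) :
    SG π (x * y) ∧ lg (sy π (x * y)) = lg (sy π x) + lg (sy π y) := by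
  unfold SG
  rw [sy_mul' hπ]
  exact ⟨sgn_mul hx hy, lg_mul hx hy⟩

lemma sy_one' {π : eis} (hπ : Prime π) : sy π 1 = 1 := by
  classical
  unfold sy
  rw [if_neg, if_pos]
  · rw [map_one]
    exact IsSquare.one
  · rw [Ideal.mem_span_singleton]
    exact fun h => hπ.not_isUnit (isUnit_of_dvd_one h)

lemma SG.powv {π x : eis} (hπ : Prime π) (hx : SG π x) (t : ZMod 2) :
    SG π (x ^ t.val) ∧ lg (sy π (x ^ t.val)) = t * lg (sy π x) := by
  rcases z2 t with rfl | rfl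
  · rw [ZMod.val_zero, pow_zero, zero_mul]
    unfold SG
    rw [sy_one' hπ]
    exact ⟨Or.inl rfl, lg_one⟩
  · rw [show ZMod.val (1 : ZMod 2) = 1 from rfl, pow_one, one_mul]
    exact ⟨hx, rfl⟩

lemma sy_prod' {π : eis} (hπ : Prime π) {ι : Type} (T : Finset ι) (f : ι → eis) :
    sy π (∏ i ∈ T, f i) = ∏ i ∈ T, sy π (f i) := by
  classical
  induction T using Finset.induction_on with
  | empty => rw [Finset.prod_empty, Finset.prod_empty, sy_one' hπ]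
  | insert q S hq ih => rw [Finset.prod_insert hq, Finset.prod_insert hq, sy_mul' hπ, ih]

lemma SG.one {π x : eis} (h : SG π x) (h0 : lg (sy π x) = 0) : sy π x = 1 := by
  rcases h with h | h
  · exact h
  · rw [h, lg_neg_one] at h0
    exact absurd h0 one_ne_zero

section
variable {Q P : Finset ℕ} {ϖ : ℕ → eis}

/-- the product of the primes of `T` -/
noncomputable def zT (Q : Finset ℕ) (ϖ : ℕ → eis) (T : Finset (ℕ × Bool)) : eis :=
  ∏ i ∈ T, pf Q ϖ i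

lemma nb_self (h : Dt Q P ϖ) {j : ℕ × Bool} (hj : j ∈ ix Q P) (hc : cI Q j = j) :
    F4.tr (bt (pf Q ϖ j)) = 0 := by
  have h1 := bt_cj ((fx h).pd j hj).n1
  rw [← pf_cI, hc] at h1
  generalize bt (pf Q ϖ j) = b at h1 ⊢
  revert b
  decide

lemma nb_cI (h : Dt Q P ϖ) {j : ℕ × Bool} (hj : j ∈ ix Q P) :
    F4.tr (bt (pf Q ϖ (cI Q j))) = F4.tr (bt (pf Q ϖ j)) := by
  rw [pf_cI, bt_cj ((fx h).pd j hj).n1]
  generalize bt (pf Q ϖ j) = b
  revert b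
  decide

lemma sg_neg (h : Dt Q P ϖ) {j : ℕ × Bool} (hj : j ∈ ix Q P) : SG (pf Q ϖ j) (-1) ∧
    lg (sy (pf Q ϖ j) (-1)) = F4.tr (bt (pf Q ϖ j)) := by
  have hX := (fx h).pd j hj
  exact ⟨sy_neg_one hX.pr, (Pool.Agent.L0h23.FR.t_SUP _ hX).1⟩

lemma sg_la (h : Dt Q P ϖ) {j : ℕ × Bool} (hj : j ∈ ix Q P) : SG (pf Q ϖ j) la ∧
    lg (sy (pf Q ϖ j) la) = F4.tr (F4.w * bt (pf Q ϖ j)) := by
  have hX := (fx h).pd j hj
  refine ⟨sy_sgn fun h1 => ?_, (Pool.Agent.L0h23.FR.t_SUP _ hX).2⟩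
  obtain ⟨u, hu⟩ := hX.n1
  rw [Ideal.mem_span_singleton] at h1
  apply hX.pr.not_isUnit
  apply isUnit_of_dvd_one
  have e : (1 : eis) = pf Q ϖ j - 2 * la * u := by rw [hu]; ring
  rw [e]
  exact dvd_sub dvd_rfl ((h1.mul_left 2).mul_right u)

lemma sg_zT (h : Dt Q P ϖ) {U : Finset (ℕ × Bool)} (hU : U ⊆ ix Q P) {j : ℕ × Bool}
    (hj : j ∈ ix Q P) (hjU : j ∉ U) : SG (pf Q ϖ j) (zT Q ϖ U) ∧
    lg (sy (pf Q ϖ j) (zT Q ϖ U)) = ∑ i ∈ U, mm (pf Q ϖ) i j := by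
  have hX := fx h
  unfold SG zT
  rw [sy_prod' (hX.pd j hj).pr]
  exact sgn_prod fun i hi => sy_sgn (hX.ne i (hU hi) j hj fun h1 => hjU (h1 ▸ hi))

/-- the equations -/
structure Kn (Q P : Finset ℕ) (ϖ : ℕ → eis) (ε : ZMod 2) (x : ℕ × Bool → ZMod 2) : Prop where
  eq : ∀ j ∈ ix Q P, ∑ i ∈ (ix Q P).erase j, mm (pf Q ϖ) i j * x i +
      (∑ i ∈ (ix Q P).erase j, mm (pf Q ϖ) i j + F4.tr (F4.w * bt (pf Q ϖ j)) +
        ε * F4.tr (bt (pf Q ϖ j))) * x j +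
      F4.tr (bt (pf Q ϖ j)) * x (cI Q j) = 0
  nz : ∃ i ∈ ix Q P, x i ≠ 0

lemma exists_Kn {ε : ZMod 2} (h : ¬ Pool.Agent.L0h23.FDE.Sys Q P ϖ ε) : ∃ x, Kn Q P ϖ ε x := by
  unfold Pool.Agent.L0h23.FDE.Sys at h
  push Not at h
  obtain ⟨x, h1, h2⟩ := h
  exact ⟨x, h1, h2⟩

/-- the set of the indices -/
noncomputable def TT (Q P : Finset ℕ) (x : ℕ × Bool → ZMod 2) : Finset (ℕ × Bool) :=
  (ix Q P).filter fun i => x i = 1

lemma TT_sub (x : ℕ × Bool → ZMod 2) : TT Q P x ⊆ ix Q P := Finset.filter_subset _ _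

lemma mem_TT {x : ℕ × Bool → ZMod 2} {i : ℕ × Bool} : i ∈ TT Q P x ↔ i ∈ ix Q P ∧ x i = 1 :=
  Finset.mem_filter

lemma sum_TT {x : ℕ × Bool → ZMod 2} {U : Finset (ℕ × Bool)} (hU : U ⊆ ix Q P)
    (f : ℕ × Bool → ZMod 2) : ∑ i ∈ U, f i * x i = ∑ i ∈ TT Q P x ∩ U, f i := by
  have e1 : TT Q P x ∩ U = U.filter fun i => x i = 1 := by
    ext i
    rw [Finset.mem_inter, mem_TT, Finset.mem_filter]
    constructor
    · rintro ⟨⟨-, h1⟩, h2⟩
      exact ⟨h2, h1⟩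
    · rintro ⟨h1, h2⟩
      exact ⟨⟨hU h1, h2⟩, h1⟩
  rw [e1, Finset.sum_filter]
  refine Finset.sum_congr rfl fun i _ => ?_
  rcases z2 (x i) with h | h <;> rw [h]
  · rw [if_neg (by decide), mul_zero]
  · rw [if_pos rfl, mul_one]

variable {ε : ZMod 2} {x : ℕ × Bool → ZMod 2}

lemma sy_out (h : Dt Q P ϖ) (hK : Kn Q P ϖ ε x) {j : ℕ × Bool} (hj : j ∈ ix Q P) (h0 : x j = 0) :
    sy (pf Q ϖ j) ((-1) ^ (x (cI Q j)).val * zT Q ϖ (TT Q P x)) = 1 := by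
  have hπ := ((fx h).pd j hj).pr
  have hjT : j ∉ TT Q P x := fun h1 => by
    have := (mem_TT.1 h1).2
    rw [h0] at this
    exact absurd this (by decide)
  obtain ⟨a1, a2⟩ := (sg_neg h hj).1.powv hπ (x (cI Q j))
  obtain ⟨b1, b2⟩ := sg_zT h (TT_sub x) hj hjT
  obtain ⟨c1, c2⟩ := a1.mul hπ b1
  refine c1.one ?_
  have h1 := hK.eq j hj
  rw [sum_TT (Finset.erase_subset _ _), h0, mul_zero, add_zero] at h1
  have e1 : TT Q P x ∩ (ix Q P).erase j = TT Q P x := by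
    rw [Finset.inter_eq_left]
    intro i hi
    exact Finset.mem_erase.2 ⟨fun h2 => hjT (h2 ▸ hi), TT_sub x hi⟩
  rw [e1] at h1
  rw [c2, a2, b2, (sg_neg h hj).2]
  linear_combination h1

lemma sy_in (h : Dt Q P ϖ) (hK : Kn Q P ϖ ε x) {j : ℕ × Bool} (hj : j ∈ ix Q P) (h0 : x j = 1)
    {D : ℤ} (hD : (D : eis) = (-1) ^ ε.val * ∏ i ∈ ix Q P, pf Q ϖ i) :
    ∃ z₁ D₁ : eis, zT Q ϖ (TT Q P x) = pf Q ϖ j * z₁ ∧ (D : eis) = pf Q ϖ j * D₁ ∧
      sy (pf Q ϖ j) ((-1) ^ (x (cI Q j)).val * (la * (D₁ * z₁))) = 1 := by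
  classical
  have hπ := ((fx h).pd j hj).pr
  have hjT : j ∈ TT Q P x := mem_TT.2 ⟨hj, h0⟩
  refine ⟨zT Q ϖ ((TT Q P x).erase j), (-1) ^ ε.val * zT Q ϖ ((ix Q P).erase j), ?_, ?_, ?_⟩
  · unfold zT
    rw [Finset.mul_prod_erase _ _ hjT]
  · rw [hD]
    unfold zT
    rw [← Finset.mul_prod_erase _ _ hj]
    ring
  · obtain ⟨a1, a2⟩ := (sg_neg h hj).1.powv hπ (x (cI Q j))
    obtain ⟨b1, b2⟩ := (sg_neg h hj).1.powv hπ ε
    obtain ⟨c1, c2⟩ := sg_zT h (U := (ix Q P).erase j) (Finset.erase_subset _ _) hj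
      (Finset.notMem_erase _ _)
    obtain ⟨d1, d2⟩ := sg_zT h (U := (TT Q P x).erase j)
      ((Finset.erase_subset _ _).trans (TT_sub x)) hj (Finset.notMem_erase _ _)
    obtain ⟨e1, e2⟩ := b1.mul hπ c1
    obtain ⟨f1, f2⟩ := e1.mul hπ d1
    obtain ⟨g1, g2⟩ := (sg_la h hj).1.mul hπ f1
    obtain ⟨k1, k2⟩ := a1.mul hπ g1
    refine k1.one ?_
    have h1 := hK.eq j hj
    rw [sum_TT (Finset.erase_subset _ _), h0, mul_one] at h1
    have e3 : TT Q P x ∩ (ix Q P).erase j = (TT Q P x).erase j := by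
      ext i
      rw [Finset.mem_inter, Finset.mem_erase, Finset.mem_erase]
      constructor
      · rintro ⟨h2, h3, -⟩
        exact ⟨h3, h2⟩
      · rintro ⟨h2, h3⟩
        exact ⟨h3, h2, TT_sub x h3⟩
    rw [e3] at h1
    rw [k2, a2, g2, f2, e2, b2, c2, d2, (sg_neg h hj).2, (sg_la h hj).2]
    linear_combination h1

/-- the sum of the equations -/
lemma sum_la (h : Dt Q P ϖ) (hK : Kn Q P ϖ ε x)
    (hs : ∑ i ∈ ix Q P, bt (pf Q ϖ i) = F4.of ε) :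
    F4.tr (F4.w * bt (zT Q ϖ (TT Q P x))) = 0 := by
  classical
  have hX := fx h
  have htr : ∀ (s : Finset (ℕ × Bool)) (f : ℕ × Bool → F4), F4.tr (∑ i ∈ s, f i) =
      ∑ i ∈ s, F4.tr (f i) := by
    intro s f
    induction s using Finset.induction_on with
    | empty => rfl
    | insert q S hq ih =>
      rw [Finset.sum_insert hq, Finset.sum_insert hq, ← ih]
      rfl
  have e1 : bt (zT Q ϖ (TT Q P x)) = ∑ i ∈ TT Q P x, bt (pf Q ϖ i) :=
    (N1_prod fun i hi => (hX.pd i (TT_sub x hi)).n1).2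
  rw [e1, Finset.mul_sum, htr]
  have e2 := sum_TT (x := x) (Finset.Subset.refl (ix Q P)) fun i => F4.tr (F4.w * bt (pf Q ϖ i))
  rw [Finset.inter_eq_left.2 (TT_sub x)] at e2
  rw [← e2]
  -- the sum of the equations
  have s0 : ∑ j ∈ ix Q P, (∑ i ∈ (ix Q P).erase j, mm (pf Q ϖ) i j * x i +
      (∑ i ∈ (ix Q P).erase j, mm (pf Q ϖ) i j + F4.tr (F4.w * bt (pf Q ϖ j)) +
        ε * F4.tr (bt (pf Q ϖ j))) * x j +
      F4.tr (bt (pf Q ϖ j)) * x (cI Q j)) = 0 := Finset.sum_eq_zero hK.eq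
  have s1 : ∑ j ∈ ix Q P, ∑ i ∈ (ix Q P).erase j, mm (pf Q ϖ) i j * x i =
      ∑ j ∈ ix Q P, (∑ i ∈ (ix Q P).erase j, mm (pf Q ϖ) j i) * x j := by
    have k1 : ∀ (f : ℕ × Bool → ℕ × Bool → ZMod 2), ∑ j ∈ ix Q P, ∑ i ∈ (ix Q P).erase j, f i j =
        ∑ j ∈ ix Q P, ∑ i ∈ (ix Q P).erase j, f j i := by
      intro f
      refine Finset.sum_comm' ?_
      intro a b
      simp only [Finset.mem_erase]
      tauto
    rw [k1 fun i j => mm (pf Q ϖ) i j * x i]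
    refine Finset.sum_congr rfl fun j _ => ?_
    rw [Finset.sum_mul]
  have s2 : ∀ j ∈ ix Q P, (∑ i ∈ (ix Q P).erase j, mm (pf Q ϖ) j i) +
      ∑ i ∈ (ix Q P).erase j, mm (pf Q ϖ) i j =
      ε * F4.tr (bt (pf Q ϖ j)) + F4.tr (bt (pf Q ϖ j)) := by
    intro j hj
    rw [← Finset.sum_add_distrib]
    have k1 : ∀ i ∈ (ix Q P).erase j, mm (pf Q ϖ) j i + mm (pf Q ϖ) i j =
        F4.tr (bt (pf Q ϖ j) * bt (pf Q ϖ i)) := by
      intro i hi
      obtain ⟨h1, h2⟩ := Finset.mem_erase.1 hi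
      exact Pool.Agent.L0h23.FR.t_REC _ _ (hX.pd j hj) (hX.pd i h2) (hX.ne j hj i h2 (Ne.symm h1))
    rw [Finset.sum_congr rfl k1, ← htr, ← Finset.mul_sum,
      Finset.sum_erase_eq_sub hj, hs]
    have k2 : ∀ (b : F4) (e : ZMod 2), (b * (F4.of e - b)).tr = e * b.tr + b.tr := by decide
    exact k2 _ _
  have s3 : ∑ j ∈ ix Q P, F4.tr (bt (pf Q ϖ j)) * x (cI Q j) =
      ∑ j ∈ ix Q P, F4.tr (bt (pf Q ϖ j)) * x j := by
    refine Finset.sum_nbij' (cI Q) (cI Q) (fun j hj => cI_mem hj) (fun j hj => cI_mem hj)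
      (fun j _ => cI_cI j) (fun j _ => cI_cI j) ?_
    intro j hj
    rw [nb_cI h hj]
  rw [Finset.sum_add_distrib, Finset.sum_add_distrib, s1, s3, ← Finset.sum_add_distrib,
    ← Finset.sum_add_distrib] at s0
  rw [← s0]
  refine Finset.sum_congr rfl fun j hj => ?_
  have h2 := s2 j hj
  have h3 := z2_self (ε * F4.tr (bt (pf Q ϖ j)) * x j)
  have h4 := z2_self (F4.tr (bt (pf Q ϖ j)) * x j)
  linear_combination -h2 * x j - h3 - h4

end

/-- the two residues modulo four -/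
lemma mod4_of {z : eis} (hz : N1 z) (h : F4.tr (F4.w * bt z) = 0) :
    (4 : eis) ∣ z - 1 ∨ (4 : eis) ∣ z + la := by
  obtain ⟨u, rfl⟩ := hz
  have e1 : (1 + 2 * la * u : eis) = 1 + 2 * (la * u) := by ring
  rw [e1, bt_eq] at h
  rw [e1]
  obtain ⟨a, b, hab⟩ := ez_ex (la * u)
  rw [hab, rho_ez] at h
  rw [hab]
  have h1 : (a : ZMod 2) = b := by
    have k : ∀ a b : ZMod 2, F4.tr (F4.w * ⟨a, b⟩) = 0 → a = b := by decide
    exact k _ _ h
  rw [ZMod.intCast_eq_intCast_iff] at h1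
  have h2 : a % 2 = b % 2 := h1
  rcases Int.emod_two_eq_zero_or_one a with h3 | h3
  · left
    refine ⟨ez (a / 2) (b / 2), ?_⟩
    have e2 : a = 2 * (a / 2) := by omega
    have e3 : b = 2 * (b / 2) := by omega
    have e4 : ez a b = 2 * ez (a / 2) (b / 2) := by
      have e5 : (2 : eis) = ez 2 0 := by
        rw [ez_int]
        norm_cast
      rw [e5, ez_mul]
      congr 1 <;> omega
    rw [e4]
    ring
  · right
    refine ⟨ez ((a + 1) / 2) ((b + 1) / 2), ?_⟩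
    have e4 : ez a b + ez 1 1 = 2 * ez ((a + 1) / 2) ((b + 1) / 2) := by
      have e5 : (2 : eis) = ez 2 0 := by
        rw [ez_int]
        norm_cast
      rw [e5, ez_mul, ez_add]
      congr 1 <;> omega
    have e6 : la = 2 * ez 1 1 - 1 := by
      unfold la ez
      push_cast
      ring
    rw [e6]
    linear_combination 2 * e4

end Pool.Agent.L0h4.T3
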